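import Pool.Agent.Lib_helper57.YT.I

/-!
# Truth-table completeness makes `E^NP` with few rounds compressible (MP_675993_lc): the theorem
-/

set_option autoImplicit false
set_option linter.unusedSectionVars false

namespace Pool.Agent.CKP

open Pool.Agent.CK

variable {O : Lang}
variable {α β γ δ : Type} [ToD α] [ToD β] [ToD γ] [ToD δ]

theorem xsF_len {c : ℕ} {lam : List Unit} {x : List Bool} (h : x ∈ xsF c lam) :
    2 ^ (x.length + 1) ≤ 4 * (lam.length + 2) ^ c := by
  unfold xsF at h
  obtain ⟨u, hu, rfl⟩ := List.mem_map.mp h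
  rw [mem_rangeU, List.length_replicate] at hu
  have := two_pow_str u.length
  omega

theorem tmF_xs {c k : ℕ} {lam : List Unit} {x : List Bool} (h : x ∈ xsF c lam) :
    x.length + 2 ^ (k * (x.length + 1)) ≤ (tmF c (k + 1) lam).length := by
  unfold tmF
  rw [List.length_replicate]
  refine le_trans ?_ (Nat.pow_le_pow_left (xsF_len h) (k + 1))
  rw [pow_succ, ← pow_mul, mul_comm (x.length + 1) k]
  have h1 : x.length + 2 ≤ 2 ^ (x.length + 1) := by
    have : x.length + 1 < 2 ^ (x.length + 1) := Nat.lt_two_pow_self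
    omega
  have h2 : 1 ≤ 2 ^ (k * (x.length + 1)) := Nat.one_le_two_pow
  nlinarith [Nat.mul_le_mul h2 h1]

/-- the answer on `x` in the case without keys -/
def ansYT (O : Lang) (W : ℕ → ℕ → Bool) (ℓ : ℕ → ℕ) (r kk : ℕ) (Q : List Bool → List (List Bool))
    (V : List Bool → List Bool → Bool) (q0 c0 : Cmd) (g : List Bool → List Bool) (c k0 e : ℕ)
    (x w : List Bool) : Bool :=
  accU O (cmdD c0) x (lkS (allS O W ℓ r kk Q V q0 g (adv1 w)
    (List.replicate (2 ^ e * ((ulen w).length + 2) ^ e) ()) (tmF c (k0 + 1) (ulen w))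
    (xsF c (ulen w)) (advJ w)) x) (tmF c (k0 + 1) (ulen w))

theorem PTime.ansYT {W : ℕ → ℕ → Bool} {ℓ : ℕ → ℕ} (hver : Ver O W ℓ) (r kk : ℕ)
    {Q : List Bool → List (List Bool)} {V : List Bool → List Bool → Bool} (hQ : PTime O Q)
    (hV : PTime O (fun p : List Bool × List Bool => V p.1 p.2)) (q0 c0 : Cmd)
    {g : List Bool → List Bool} (hg : PTime O g) (c k0 e : ℕ) :
    PTime O (fun p : List Bool × List Bool => CKP.ansYT O W ℓ r kk Q V q0 c0 g c k0 e p.1 p.2) := by
  unfold CKP.ansYT
  have hl : PTime O (fun p : List Bool × List Bool => CKP.ulen p.2) := PTime.ulen PTime.id.snd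
  have ht : PTime O (fun p : List Bool × List Bool => CKP.tmF c (k0 + 1) (CKP.ulen p.2)) :=
    (tmF_ptime c (k0 + 1)).comp hl
  refine PTime.accU (PTime.const (cmdD c0)) PTime.id.fst ?_ ht
  refine PTime.lkS ?_ PTime.id.fst
  refine PTime.allS hver r kk hQ hV q0 hg (PTime.adv1 PTime.id.snd) ?_ ht
    ((xsF_ptime c).comp hl) (PTime.advJ PTime.id.snd)
  exact ((UPoly.const (2 ^ e)).mul (UPoly.tb e)).comp hl

/-- sizes of the states of the simulation -/
theorem exists_bounds (q0 : Cmd) {g : List Bool → List Bool} (hg : PTime O g) {W : ℕ → ℕ → Bool}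
    {ℓ : ℕ → ℕ} (hver : Ver O W ℓ) (r kk : ℕ) {Q : List Bool → List (List Bool)}
    (hQ : PTime O Q) (c k : ℕ) : ∃ e e2 : ℕ, 1 ≤ e ∧
      ∀ (lam : List Unit) (S : List (List Bool × List Bool)), S.map Prod.fst = xsF c lam →
        (∀ p ∈ S, p.2.length ≤ lam.length * (tmF c k lam).length) →
        (∀ z ∈ zsR O q0 g (tmF c k lam) S, z.length ≤ (lam.length + 2) ^ e) ∧
        ∀ m0 ≤ lam.length, (thsZ W r kk Q m0 (zsR O q0 g (tmF c k lam) S)).length ≤
          (lam.length + 2) ^ e2 := by
  obtain ⟨PX, hPX⟩ := (xsF_ptime (O := O) c).size_le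
  obtain ⟨PM, hPM⟩ := (tmF_ptime (O := O) c k).size_le
  -- the size of the states
  obtain ⟨BS, hBS⟩ : ∃ BS : Polynomial ℕ, BS = PX.comp (2 * Polynomial.X + 1) +
      PX.comp (2 * Polynomial.X + 1) * (4 * (Polynomial.X * PM.comp (2 * Polynomial.X + 1)) + 2) :=
    ⟨_, rfl⟩
  have hsz : ∀ (lam : List Unit) (S : List (List Bool × List Bool)), S.map Prod.fst = xsF c lam →
      (∀ p ∈ S, p.2.length ≤ lam.length * (tmF c k lam).length) → sz S ≤ BS.eval lam.length := by
    intro lam S h1 h2
    have h3 := sz_state S _ h2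
    have h4 : S.length = (xsF c lam).length := by rw [← h1, List.length_map]
    have h5 := hPX lam
    have h6 := hPM lam
    rw [sz_units lam] at h5 h6
    have h7 : (xsF c lam).length ≤ PX.eval (2 * lam.length + 1) := (length_le_sz _).trans h5
    have h8 : (tmF c k lam).length ≤ PM.eval (2 * lam.length + 1) := (length_le_sz _).trans h6
    rw [h1, h4] at h3
    rw [hBS]
    simp only [Polynomial.eval_add, Polynomial.eval_mul, Polynomial.eval_ofNat,
      Polynomial.eval_comp, Polynomial.eval_X, Polynomial.eval_one]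
    refine h3.trans (Nat.add_le_add h5 (Nat.mul_le_mul h7 (Nat.add_le_add_right
      (Nat.mul_le_mul_left _ (Nat.mul_le_mul_left _ h8)) _)))
  -- the size of the queries
  obtain ⟨PZ, hPZ⟩ := (PTime.zsR (O := O) (γ := List Unit × List (List Bool × List Bool)) q0 hg
    (N := fun p => tmF c k p.1) (S := fun p => p.2) ((tmF_ptime c k).comp PTime.id.fst)
    PTime.id.snd).size_le
  obtain ⟨e', he'⟩ := exists_pow (PZ.comp (2 * Polynomial.X + BS + 2))
  -- the number of comparisons
  obtain ⟨PT, hPT⟩ := (PTime.thsZ (O := O) hver r kk hQ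
    (γ := List Unit × ℕ × List (List Bool × List Bool)) (n0 := fun p => p.2.1)
    (Z := fun p => zsR O q0 g (tmF c k p.1) p.2.2) PTime.id.snd.fst
    (PTime.zsR q0 hg ((tmF_ptime c k).comp PTime.id.fst) PTime.id.snd.snd)).size_le
  obtain ⟨e2, he2⟩ := exists_pow (PT.comp (6 * Polynomial.X + BS + 4))
  refine ⟨e' + 1, e2, by omega, fun lam S h1 h2 => ⟨fun z hz => ?_, fun m0 hm => ?_⟩⟩
  · have h3 : z.length ≤ sz z := length_le_sz z
    have h4 : sz z ≤ sz (zsR O q0 g (tmF c k lam) S) := sz_le_of_mem hz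
    have h5 : sz (zsR O q0 g (tmF c k lam) S) ≤ PZ.eval (sz (lam, S)) := hPZ (lam, S)
    have h6 := hsz lam S h1 h2
    have h7 : sz (lam, S) ≤ 2 * lam.length + BS.eval lam.length + 2 := by
      rw [sz_pair, sz_units]
      omega
    have h8 := he' lam.length
    simp only [Polynomial.eval_comp, Polynomial.eval_add, Polynomial.eval_mul,
      Polynomial.eval_ofNat, Polynomial.eval_X] at h8
    refine (h3.trans (h4.trans (h5.trans ((poly_mono PZ h7).trans (h8.trans ?_)))))
    exact Nat.pow_le_pow_right (by omega) (by omega)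
  · have h3 := length_le_sz (thsZ W r kk Q m0 (zsR O q0 g (tmF c k lam) S))
    have h4 : sz (thsZ W r kk Q m0 (zsR O q0 g (tmF c k lam) S)) ≤ PT.eval (sz (lam, m0, S)) :=
      hPT (lam, m0, S)
    have h6 := hsz lam S h1 h2
    have h7 : sz (lam, m0, S) ≤ 6 * lam.length + BS.eval lam.length + 4 := by
      rw [sz_pair, sz_pair, sz_units]
      have := sz_nat_self m0
      omega
    have h8 := he2 lam.length
    simp only [Polynomial.eval_comp, Polynomial.eval_add, Polynomial.eval_mul,
      Polynomial.eval_ofNat, Polynomial.eval_X] at h8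
    exact h3.trans (h4.trans ((poly_mono PT h7).trans h8))

/-- Either a key or an advice for the other procedure. -/
theorem often_cases {L : Lang} {ε : ℝ} {c : ℕ} (hc1 : 1 ≤ c) (hcε : 1 / (c : ℝ) < ε)
    {VK VA : List Bool → List Bool → Bool}
    (hVK : PTime O (fun p : List Bool × List Bool => VK p.1 p.2))
    (hVA : PTime O (fun p : List Bool × List Bool => VA p.1 p.2)) {M : ℕ}
    (h : ∀ m0 : ℕ, M ≤ m0 →
      (∃ z : List Bool, m0 ≤ z.length ∧ z.length ≤ 2 ^ m0 ∧
        ∀ x : List Bool, 2 ^ x.length ≤ (z.length + 2) ^ c → VK x z = L x) ∨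
      ∃ w : List Bool, m0 ≤ w.length ∧ w.length ≤ 2 ^ m0 ∧
        ∀ x : List Bool, 2 ^ x.length ≤ (w.length + 2) ^ c → VA x w = L x) :
    InOftenEadvice O ε L := by
  have hVP : PTime O (fun p : List Bool × List Bool => if p.2.headD false = true then
      VA p.1 p.2.tail else VK p.1 p.2.tail) := by
    have ht : PTime O (fun p : List Bool × List Bool => (p.1, p.2.tail)) :=
      PTime.id.fst.pair PTime.id.snd.tail
    exact PTime.ite (PTime.headD PTime.id.snd (PTime.const false))
      (PTime.comp (g := fun p : List Bool × List Bool => VA p.1 p.2) hVA ht)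
      (PTime.comp (g := fun p : List Bool × List Bool => VK p.1 p.2) hVK ht)
  refine often_of hc1 hcε (V := fun x w => if w.headD false = true then VA x w.tail
    else VK x w.tail) hVP (M := M) fun m0 hm0 => ?_
  rcases h m0 hm0 with ⟨z, h1, h2, h3⟩ | ⟨w, h1, h2, h3⟩
  · refine ⟨false :: z, by rw [List.length_cons]; omega, by rw [List.length_cons]; omega,
      fun x hx => ?_⟩
    rw [List.length_cons] at hx
    have := h3 x hx
    simpa using this
  · refine ⟨true :: w, by rw [List.length_cons]; omega, by rw [List.length_cons]; omega,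
      fun x hx => ?_⟩
    rw [List.length_cons] at hx
    have := h3 x hx
    simpa using this

theorem often_rounds (hneg : ∀ C, TuringComplete O C → TTComplete O C) (ε : ℝ) (L : Lang)
    (hε : 0 < ε) (hL : InENPfewRounds O L) : InOftenEadvice O ε L := by
  obtain ⟨c, hc1, hcε⟩ := exists_r hε
  have hcpos : (0 : ℝ) < c := by exact_mod_cast hc1
  have hL1 := hL (1 / (2 * (c : ℝ))) (by positivity)
  obtain ⟨W0, ℓ0, ans0, hver0, hans0, hansL0⟩ := core_search (enp_of_rounds hL1)
  obtain ⟨W, hW⟩ : ∃ W, W = WT2 W0 ℓ0 := ⟨_, rfl⟩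
  obtain ⟨ℓ, hℓ⟩ : ∃ ℓ, ℓ = lenT ℓ0 := ⟨_, rfl⟩
  have hver : Ver O W ℓ := by rw [hW, hℓ]; exact ver_WT2 hver0
  have hcut : Cut W ℓ := by rw [hW, hℓ]; exact cut_WT2 hver0.hb
  have htot : ∀ m, ∃ v, W m v = true := by
    intro m
    rw [hW]
    exact ⟨_, NN_valid hver0.hb (m + 1)⟩
  obtain ⟨ans, hans', hans⟩ : ∃ ans : List Unit → ℕ → Bool,
      (ans = fun u v => ans0 u (v % 2 ^ (ℓ0 u.length + 1))) ∧
      PTime O (fun p : List Unit × ℕ => ans p.1 p.2) := by
    refine ⟨_, rfl, ?_⟩
    have h1 : PTime O (fun p : List Unit × ℕ => List.replicate (ℓ0 p.1.length + 1) ()) :=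
      UPoly.comp (g := fun n => ℓ0 n + 1) (UPoly.add hver0.hl (UPoly.const 1)) PTime.id.fst
    have h2 := PTime.modp h1 (PTime.id (O := O) (α := List Unit × ℕ)).snd
    simp only [List.length_replicate] at h2
    exact hans0.comp (PTime.id.fst.pair h2)
  have hansL : ∀ (x : List Bool) (s : Bool × ℕ), LeastSpec W (num x) s →
      ans (List.replicate (num x) ()) s.2 = L x := by
    intro x s hs
    rw [hW] at hs
    obtain ⟨t, ht⟩ := least_WT2 hver0.hb hs
    have h1 := hansL0 x _ ht
    rw [hans']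
    simp only [List.length_replicate]
    exact h1
  obtain ⟨B, q0, c0, k0, b, hB, h0⟩ := hL1
  choose r a hrle h0' hq' hr1 hr2 hc' hv' using h0
  have hRnd : ∀ x, Rnd O B q0 c0 (2 ^ (k0 * (x.length + 1))) x (L x) (r x) (a x) := fun x =>
    ⟨h0' x, hq' x, hr1 x, hr2 x, hc' x, hv' x⟩
  obtain ⟨g, hgP, hg⟩ := UK_hard hB
  obtain ⟨k, hk⟩ := CL_complete hver
  obtain ⟨Q, V, hQ, hV, hUV⟩ := tt_data ((hneg _ (hk (3 * (c + 1)) (by omega))).2 (UK O) UK_inNP)
  obtain ⟨P, hP⟩ := exists_qbound hQ
  obtain ⟨e, e2, he1, hbd⟩ := exists_bounds q0 hgP hver (3 * (c + 1)) k hQ c (k0 + 1)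
  obtain ⟨M, hM14, hM⟩ := i_par (e := e) (e2 := e2) (b := b) (c := c) he1 hc1
  -- the program
  have hkeyP : PTime O (fun p : List Bool × List Bool =>
      (keyK W (3 * (c + 1)) k ans p.1 (Q p.2)).headD false) :=
    PTime.headD (PTime.keyK hver (3 * (c + 1)) k hans PTime.id.fst (hQ.comp PTime.id.snd))
      (PTime.const false)
  have hansYT := PTime.ansYT hver (3 * (c + 1)) k hQ hV q0 c0 hgP c k0 e
  refine often_cases (VK := fun x z => (keyK W (3 * (c + 1)) k ans x (Q z)).headD false)
    (VA := ansYT O W ℓ (3 * (c + 1)) k Q V q0 c0 g c k0 e) hc1 hcε hkeyP hansYT (M := M)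
    fun m0 hm0 => ?_
  by_cases hkey : ∃ z : List Bool, m0 ≤ z.length ∧ z.length ≤ 2 ^ m0 ∧
      ∀ x : List Bool, 2 ^ x.length ≤ (z.length + 2) ^ c →
        keyK W (3 * (c + 1)) k ans x (Q z) = [L x]
  · -- the key is the advice
    obtain ⟨z, hz1, hz2, hz⟩ := hkey
    refine Or.inl ⟨z, hz1, hz2, fun x hx => ?_⟩
    rw [hz x hx]
    rfl
  · -- the advice consists of the numbers of the true comparisons of all rounds
    right
    push Not at hkey
    have hshort : ∀ z : List Bool, m0 ≤ z.length → z.length ≤ 2 ^ m0 → ∀ q ∈ Q z,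
        typ q = true → valid W (3 * (c + 1)) k q = true →
        (∀ i < (wss q).length, LeastSpec W i (ent (wss q) i)) →
        (wss q).length < 2 * (z.length + 2) ^ c := by
      intro z hz1 hz2 q hq h1 h2 h3
      obtain ⟨x, hx1, hx2⟩ := hkey z hz1 hz2
      by_contra hcon
      rw [not_lt] at hcon
      refine hx2 ?_
      have hlt : num x < (wss q).length := by
        have g6 := num_lt x
        rw [pow_succ] at g6
        omega
      exact keyK_eq (hansL x) hq h1 h2 hlt (h3 _ hlt)
    obtain ⟨lam, m, s, hl1, hl2, hl3, hl4, hml, hrm, hjs, hsum⟩ := hM m0 hm0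
    obtain ⟨lm, hlm⟩ : ∃ lm : List Unit, lm = List.replicate lam () := ⟨_, rfl⟩
    have hlml : lm.length = lam := by rw [hlm, List.length_replicate]
    obtain ⟨xs, hxs⟩ : ∃ xs, xs = xsF c lm := ⟨_, rfl⟩
    obtain ⟨N, hN⟩ : ∃ N, N = tmF c (k0 + 1) lm := ⟨_, rfl⟩
    have hNx : ∀ x ∈ xs, x.length + 2 ^ (k0 * (x.length + 1)) ≤ N.length := by
      intro x hx
      rw [hN]
      rw [hxs] at hx
      exact tmF_xs hx
    have hrx : ∀ x ∈ xs, r x ≤ m := by
      intro x hx
      refine hrm x.length (r x) ?_ (hrle x)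
      rw [hxs] at hx
      have := xsF_len hx
      rw [hlml] at this
      exact this
    have hst : ∀ i, (stR xs r a i).map Prod.fst = xsF c lm ∧
        ∀ p ∈ stR xs r a i, p.2.length ≤ lm.length * (tmF c (k0 + 1) lm).length := by
      intro i
      unfold stR
      refine ⟨?_, fun p hp => ?_⟩
      · rw [List.map_map, ← hxs]
        exact List.map_id _
      · obtain ⟨x, hx, rfl⟩ := List.mem_map.mp hp
        simp only
        have h1 := (hRnd x).len (hNx x hx) (min i (r x)) (min_le_right _ _)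
        rw [← hN, hlml]
        refine h1.trans (Nat.mul_le_mul_right _ ?_)
        exact (min_le_right _ _).trans ((hrx x hx).trans hml)
    have hbz : ∀ i, ∀ z ∈ zsR O q0 g N (stR xs r a i), z.length ≤ 2 ^ m0 := by
      intro i z hz
      rw [hN] at hz
      have h1 := (hbd lm (stR xs r a i) (hst i).1 (hst i).2).1 z hz
      rw [hlml] at h1
      exact h1.trans hl1
    obtain ⟨U, hU⟩ : ∃ U : List Unit, U = List.replicate (2 ^ e * (lm.length + 2) ^ e) () :=
      ⟨_, rfl⟩
    have hUlen : 2 ^ m0 ≤ U.length := by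
      rw [hU, List.length_replicate, hlml]
      exact hl2
    obtain ⟨js, hj1, hj2, hj3⟩ := allS_exists (U := U) hcut htot hUV (hM14.trans hm0) hUlen hP
      (b := 2 ^ m0) (fun z' h7 h8 => hshort z' h7 h8) hg (N := N) (xs := xs) (r := r) (a := a)
      (T := fun x => 2 ^ (k0 * (x.length + 1))) (L := L) (fun x _ => hRnd x) hNx hbz m
    have hfin : stR xs r a m = xs.map fun x => (x, a x (r x)) := by
      unfold stR
      refine List.map_congr_left fun x hx => ?_
      rw [min_eq_right (hrx x hx)]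
    rw [hfin] at hj3
    have hsize : ∀ j ∈ js, j.size ≤ s := by
      intro j hj
      obtain ⟨i, rfl⟩ := hj2 j hj
      refine hjs _ ((cntT_le W _).trans ?_)
      rw [hN]
      have h1 := (hbd lm (stR xs r a i) (hst i).1 (hst i).2).2 m0 (by rw [hlml]; exact hl3)
      rw [hlml] at h1
      exact h1
    have hlen0 : (advR m0 js 0).length ≤ lam := by
      have h1 := (length_advR (m := m0) (pad := 0) hsize).1
      rw [hj1] at h1
      exact h1.trans hsum
    obtain ⟨pad, hpad⟩ : ∃ pad, (advR m0 js 0).length + pad = lam :=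
      ⟨lam - (advR m0 js 0).length, by omega⟩
    have hlen : (advR m0 js pad).length = lam := by
      rw [(length_advR (m := m0) (pad := pad) hsize).2, hpad]
    obtain ⟨js', hjs'⟩ := advJ_advR (m := m0) (js := js) (pad := pad) (by rw [hj1, hlen]; exact hml)
    refine ⟨advR m0 js pad, by rw [hlen]; exact hl3, by rw [hlen]; exact hl4, fun x hx => ?_⟩
    rw [hlen] at hx
    unfold ansYT
    have hul : ulen (advR m0 js pad) = lm := by rw [ulen_eq, hlen, hlm]
    rw [hul, adv1_advR, hjs', ← hN, ← hU, ← hxs]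
    have hnx : num x < 2 * (lm.length + 2) ^ c := by
      have g6 := num_lt x
      rw [pow_succ] at g6
      rw [hlml]
      omega
    have hxmem : x ∈ xs := by
      rw [hxs]
      exact mem_xsF hnx
    rw [allS_done (T := fun x => 2 ^ (k0 * (x.length + 1))) (L := L) (B := B) (c0 := c0)
      (fun x _ => hRnd x) hNx hj3 js', lkS_eq hxmem]
    exact accU_big (hRnd x).hc (hRnd x).hv (by have := hNx x hxmem; omega)

end Pool.Agent.CKP
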