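import Pool.Agent.Lib_helper74.KY.Blk.X1
import Pool.Agent.Lib_helper74.KY.Blk.X2

/-!
# The decision procedure depends on few comparisons with the table (MP_675993_lc)

`decR` reads the table of least witnesses only by comparisons.  All comparisons that can occur for
an instance `y` are known without the table: they belong to the queries of the instances in the
static closure `closR [] y`.  Two tables that agree on these comparisons give the same decision.
-/

set_option autoImplicit false
set_option linter.unusedSectionVars false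

namespace Pool.Agent.CKP

open Pool.Agent.CK

variable {O : Lang}
variable {α β γ δ : Type} [ToD α] [ToD β] [ToD γ] [ToD δ]

/-- the comparisons that decide the query `q` -/
def thsQ (q : List Bool) : List (List Unit × ℕ) :=
  if typ q = true then (rangeU (ulen (wss q))).map fun u => (u, (ent (wss q) u.length).2)
  else [(ulen (colr q), thr q)]

/-- two tables agree on a list of comparisons -/
def AgrT (T T' : List (Bool × ℕ)) (l : List (List Unit × ℕ)) : Prop :=
  ∀ p ∈ l, (ent T p.1.length).1 = (ent T' p.1.length).1 ∧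
    ((ent T p.1.length).2 < p.2 ↔ (ent T' p.1.length).2 < p.2)

theorem mem_rangeU {u v : List Unit} : v ∈ rangeU u ↔ v.length < u.length := by
  obtain ⟨n, rfl⟩ : ∃ n, u = List.replicate n () := ⟨_, units_eq u⟩
  obtain ⟨m, rfl⟩ : ∃ m, v = List.replicate m () := ⟨_, units_eq v⟩
  rw [rangeU_replicate, List.mem_map]
  simp only [List.mem_range, List.length_replicate]
  constructor
  · rintro ⟨i, hi, h⟩
    have := congrArg List.length h
    simp only [List.length_replicate] at this
    omega
  · intro h
    exact ⟨m, h, rfl⟩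

theorem AgrT.symm {T T' : List (Bool × ℕ)} {l : List (List Unit × ℕ)} (h : AgrT T T' l) :
    AgrT T' T l := fun p hp => ⟨(h p hp).1.symm, (h p hp).2.symm⟩

theorem badK_congr {T T' : List (Bool × ℕ)} {q : List Bool} (ht : typ q = true)
    (h : AgrT T T' (thsQ q)) : badK T (wss q) = badK T' (wss q) := by
  have key : ∀ T T' : List (Bool × ℕ), AgrT T T' (thsQ q) → badK T (wss q) = true →
      badK T' (wss q) = true := by
    intro T T' h hb
    unfold badK at hb ⊢
    rw [List.any_eq_true] at hb ⊢
    obtain ⟨u, hu, hb⟩ := hb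
    refine ⟨u, hu, ?_⟩
    have h1 := h (u, (ent (wss q) u.length).2) (by
      unfold thsQ
      rw [if_pos ht]
      exact List.mem_map.mpr ⟨u, hu, rfl⟩)
    simp only at h1
    rw [Bool.and_eq_true, Bool.or_eq_true, decide_eq_true_eq] at hb ⊢
    rw [← h1.1, ← h1.2]
    exact hb
  rw [Bool.eq_iff_iff]
  exact ⟨key T T' h, key T' T h.symm⟩

theorem valK_congr {W : ℕ → ℕ → Bool} {r k : ℕ} {N : List Unit} {T T' : List (Bool × ℕ)}
    {q : List Bool} (h : AgrT T T' (thsQ q)) : valK O W r k N T q = valK O W r k N T' q := by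
  unfold valK
  by_cases ht : typ q = true
  · rw [if_pos ht, if_pos ht, badK_congr ht h]
  · rw [if_neg ht, if_neg ht]
    have h1 := h (ulen (colr q), thr q) (by
      unfold thsQ
      rw [if_neg ht]
      exact List.mem_singleton.mpr rfl)
    simp only [ulen_eq, List.length_replicate] at h1
    rw [h1.1]
    congr 1
    rw [decide_eq_decide]
    exact h1.2

theorem okR_congr {W : ℕ → ℕ → Bool} {r k : ℕ} {T T' : List (Bool × ℕ)} {y q : List Bool}
    (h : AgrT T T' (thsQ q)) : okR W r k T y q = okR W r k T' y q := by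
  unfold okR
  by_cases ht : typ q = true
  · rw [badK_congr ht h]
  · rw [Bool.not_eq_true] at ht
    rw [ht, Bool.false_and, Bool.false_and]

theorem badK_nil (ws : List (Bool × ℕ)) : badK [] ws = false := by
  rw [Bool.eq_false_iff]
  intro h
  unfold badK at h
  rw [List.any_eq_true] at h
  obtain ⟨u, -, hb⟩ := h
  rw [Bool.and_eq_true] at hb
  have : (ent [] u.length).1 = false := rfl
  rw [this] at hb
  exact absurd hb.1 (by simp)

theorem okR_nil {W : ℕ → ℕ → Bool} {r k : ℕ} {T : List (Bool × ℕ)} {y q : List Bool}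
    (h : okR W r k T y q = true) : okR W r k [] y q = true := by
  unfold okR at h ⊢
  rw [badK_nil]
  simp only [Bool.and_eq_true, Bool.not_eq_true', decide_eq_true_eq, Bool.not_false,
    Bool.true_and] at h ⊢
  exact ⟨h.1, h.2.1, h.2.2.2⟩

section

variable {W : ℕ → ℕ → Bool} {r k n0 : ℕ} {Q : List Bool → List (List Bool)}
    {V : List Bool → List Bool → Bool} {T T' : List (Bool × ℕ)}

theorem subR_nil {z s : List Bool} (h : s ∈ subR W r k Q n0 T z) : s ∈ subR W r k Q n0 [] z := by
  unfold subR at h ⊢
  split_ifs at h ⊢ with h1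
  · exact h
  · rw [List.mem_map] at h ⊢
    obtain ⟨q, hq, rfl⟩ := h
    rw [List.mem_filter] at hq
    exact ⟨q, List.mem_filter.mpr ⟨hq.1, okR_nil hq.2⟩, rfl⟩

theorem subR_congr {z : List Bool} (h : ∀ q ∈ Q z, AgrT T T' (thsQ q)) :
    subR W r k Q n0 T z = subR W r k Q n0 T' z := by
  unfold subR
  split_ifs with h1
  · rfl
  · congr 1
    refine List.filter_congr fun q hq => ?_
    rw [okR_congr (h q hq)]

theorem clos_sub (y : List Bool) (i : ℕ) :
    (∀ x ∈ ((x2_step W r k Q n0 T)^[i] ([y], [y])).1, x ∈ ((x2_step W r k Q n0 [])^[i] ([y], [y])).1) ∧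
      ∀ x ∈ ((x2_step W r k Q n0 T)^[i] ([y], [y])).2,
        x ∈ ((x2_step W r k Q n0 [])^[i] ([y], [y])).2 := by
  induction i with
  | zero => exact ⟨fun x hx => hx, fun x hx => hx⟩
  | succ i ih =>
    rw [Function.iterate_succ_apply', Function.iterate_succ_apply']
    have h2 : ∀ x ∈ ((x2_step W r k Q n0 T)^[i] ([y], [y])).2.flatMap (subR W r k Q n0 T),
        x ∈ ((x2_step W r k Q n0 [])^[i] ([y], [y])).2.flatMap (subR W r k Q n0 []) := by
      intro x hx
      rw [List.mem_flatMap] at hx ⊢
      obtain ⟨z, hz, hxz⟩ := hx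
      exact ⟨z, ih.2 z hz, subR_nil hxz⟩
    refine ⟨fun x hx => ?_, h2⟩
    rcases List.mem_append.mp hx with h | h
    · exact List.mem_append_left _ (ih.1 x h)
    · exact List.mem_append_right _ (h2 x h)

theorem clos_mono (y : List Bool) {i j : ℕ} (h : i ≤ j) :
    ∀ x ∈ ((x2_step W r k Q n0 T)^[i] ([y], [y])).1,
      x ∈ ((x2_step W r k Q n0 T)^[j] ([y], [y])).1 := by
  induction j with
  | zero =>
    have : i = 0 := by omega
    subst this
    exact fun x hx => hx
  | succ j ih =>
    rcases Nat.lt_or_ge i (j + 1) with h1 | h1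
    · intro x hx
      rw [Function.iterate_succ_apply']
      exact List.mem_append_left _ (ih (by omega) x hx)
    · have : i = j + 1 := by omega
      subst this
      exact fun x hx => hx

/-- the static closure of `y` -/
def closS (W : ℕ → ℕ → Bool) (r k : ℕ) (Q : List Bool → List (List Bool)) (n0 : ℕ)
    (y : List Bool) : List (List Bool) := (closR W r k Q n0 [] y (() :: ulen y)).1

theorem closR_iter (y : List Bool) : closR W r k Q n0 T y (() :: ulen y) =
    (x2_step W r k Q n0 T)^[y.length + 1] ([y], [y]) := by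
  have hlen : (() :: ulen y).length = y.length + 1 := by
    rw [List.length_cons, ulen_eq, List.length_replicate]
  unfold closR
  rw [← hlen]
  exact x2_foldl (x2_step W r k Q n0 T) _ _

theorem mem_closS {y x : List Bool} {i : ℕ} (hi : i ≤ y.length + 1)
    (hx : x ∈ ((x2_step W r k Q n0 T)^[i] ([y], [y])).1) : x ∈ closS W r k Q n0 y := by
  unfold closS
  rw [closR_iter]
  exact clos_mono y hi x ((clos_sub y i).1 x hx)

theorem closS_len {y x : List Bool} (hx : x ∈ closS W r k Q n0 y) : x.length ≤ y.length := by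
  unfold closS at hx
  rw [closR_iter] at hx
  exact (x2_iter (W := W) (k := k) (Q := Q) (n0 := n0) (T := []) r y (y.length + 1)).2.2.2.1 x hx

theorem iter_congr {y : List Bool}
    (h : ∀ z ∈ closS W r k Q n0 y, ∀ q ∈ Q z, AgrT T T' (thsQ q)) (i : ℕ) (hi : i ≤ y.length + 1) :
    (x2_step W r k Q n0 T)^[i] ([y], [y]) = (x2_step W r k Q n0 T')^[i] ([y], [y]) := by
  induction i with
  | zero => rfl
  | succ i ih =>
    rw [Function.iterate_succ_apply', Function.iterate_succ_apply', ← ih (by omega)]
    have h1 : ((x2_step W r k Q n0 T)^[i] ([y], [y])).2.flatMap (subR W r k Q n0 T) =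
        ((x2_step W r k Q n0 T)^[i] ([y], [y])).2.flatMap (subR W r k Q n0 T') := by
      refine List.flatMap_congr fun z hz => subR_congr (h z ?_)
      refine mem_closS (T := T) (i := i) (by omega) ?_
      exact (x2_iter (W := W) (k := k) (Q := Q) (n0 := n0) (T := T) r y i).2.1 z hz
    unfold x2_step at h1 ⊢
    rw [h1]

theorem valR_congr {U : List Unit} {φ : List Bool → Bool} {z : List Bool}
    (h : ∀ q ∈ Q z, AgrT T T' (thsQ q)) :
    valR O W r k Q V n0 U T φ z = valR O W r k Q V n0 U T' φ z := by
  unfold valR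
  split_ifs with h1
  · rfl
  · congr 1
    refine List.map_congr_left fun q hq => ?_
    rw [okR_congr (h q hq), valK_congr (h q hq)]

theorem pass_congr {U : List Unit} {S : List (List Bool)}
    (h : ∀ z ∈ S, ∀ q ∈ Q z, AgrT T T' (thsQ q)) : ∀ (l : List Unit)
    (A : List (List Bool × Bool)), (∀ p ∈ A, p.1 ∈ S) →
    l.foldl (fun A _ => passR O W r k Q V n0 U T A) A =
      l.foldl (fun A _ => passR O W r k Q V n0 U T' A) A := by
  intro l
  induction l with
  | nil => intro A _; rfl
  | cons x l ih =>
    intro A hA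
    rw [List.foldl_cons, List.foldl_cons]
    have h1 : passR O W r k Q V n0 U T A = passR O W r k Q V n0 U T' A := by
      unfold passR
      refine List.map_congr_left fun p hp => ?_
      rw [valR_congr (h p.1 (hA p hp))]
    rw [← h1]
    refine ih _ fun p hp => ?_
    unfold passR at hp
    rw [List.mem_map] at hp
    obtain ⟨p', hp', rfl⟩ := hp
    exact hA p' hp'

/-- The decision depends only on the comparisons of the static closure. -/
theorem decR_congr {U : List Unit} {y : List Bool}
    (h : ∀ z ∈ closS W r k Q n0 y, ∀ q ∈ Q z, AgrT T T' (thsQ q)) :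
    decR O W r k Q V n0 U T y = decR O W r k Q V n0 U T' y := by
  have h1 : (closR W r k Q n0 T y (() :: ulen y)).1 = (closR W r k Q n0 T' y (() :: ulen y)).1 := by
    rw [closR_iter, closR_iter, iter_congr h _ le_rfl]
  unfold decR
  rw [← h1]
  congr 1
  refine pass_congr h _ _ fun p hp => ?_
  rw [List.mem_map] at hp
  obtain ⟨s, hs, rfl⟩ := hp
  rw [closR_iter] at hs
  exact mem_closS (T := T) le_rfl hs

end

end Pool.Agent.CKP
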