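import Pool.Agent.Lib_helper57.YT.A
import Pool.Agent.Lib_helper57.YR.Nest

/-!
# A table from the number of true comparisons (MP_675993_lc)

For a verifier with one cut (`Cut W ℓ`) the true comparisons in a list `Θ` are the greatest ones, so
their number `j` determines them, and a table which agrees with the table of the least witnesses on
`Θ` can be computed from `Θ` and `j`.
-/

set_option autoImplicit false
set_option linter.unusedSectionVars false

namespace Pool.Agent.CKP

open Pool.Agent.CK

variable {O : Lang}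
variable {α β γ δ : Type} [ToD α] [ToD β] [ToD γ] [ToD δ]

/-! ### lists -/

theorem filt_le {A : Type} {P Q : A → Bool} : ∀ {l : List A}, (∀ x ∈ l, P x = true → Q x = true) →
    (l.filter P).length ≤ (l.filter Q).length := by
  intro l
  induction l with
  | nil => intro _; simp
  | cons a t ih =>
    intro h
    have h1 := ih fun x hx => h x (List.mem_cons_of_mem _ hx)
    have h2 := h a List.mem_cons_self
    by_cases hP : P a = true
    · rw [List.filter_cons_of_pos hP, List.filter_cons_of_pos (h2 hP)]
      simpa using h1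
    · rw [List.filter_cons_of_neg hP]
      by_cases hQ : Q a = true
      · rw [List.filter_cons_of_pos hQ, List.length_cons]
        omega
      · rw [List.filter_cons_of_neg hQ]
        exact h1

theorem filt_lt {A : Type} {P Q : A → Bool} : ∀ {l : List A}, (∀ x ∈ l, P x = true → Q x = true) →
    (∃ x ∈ l, ¬ P x = true ∧ Q x = true) → (l.filter P).length < (l.filter Q).length := by
  intro l
  induction l with
  | nil => rintro _ ⟨x, hx, -⟩; exact absurd hx (by simp)
  | cons a t ih =>
    rintro h ⟨x, hx, hPx, hQx⟩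
    have h0 : ∀ x ∈ t, P x = true → Q x = true := fun x hx => h x (List.mem_cons_of_mem _ hx)
    have h1 := filt_le h0
    have h2 := h a List.mem_cons_self
    rcases List.mem_cons.mp hx with rfl | hx
    · rw [List.filter_cons_of_neg hPx, List.filter_cons_of_pos hQx, List.length_cons]
      omega
    · have h3 := ih h0 ⟨x, hx, hPx, hQx⟩
      by_cases hP : P a = true
      · rw [List.filter_cons_of_pos hP, List.filter_cons_of_pos (h2 hP), List.length_cons,
          List.length_cons]
        omega
      · rw [List.filter_cons_of_neg hP]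
        by_cases hQ : Q a = true
        · rw [List.filter_cons_of_pos hQ, List.length_cons]
          omega
        · rw [List.filter_cons_of_neg hQ]
          exact h3

/-- the greatest element of a list -/
def maxL (l : List ℕ) : ℕ := (l.filter fun a => l.all fun b => decide (b ≤ a)).headD 0

theorem exists_max (l : List ℕ) (h : l ≠ []) : ∃ a ∈ l, ∀ b ∈ l, b ≤ a := by
  induction l with
  | nil => exact absurd rfl h
  | cons a t ih =>
    by_cases ht : t = []
    · subst ht
      exact ⟨a, List.mem_cons_self, fun b hb => by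
        rcases List.mem_cons.mp hb with rfl | hb
        · exact le_rfl
        · exact absurd hb (by simp)⟩
    · obtain ⟨c, hc, hmax⟩ := ih ht
      rcases Nat.le_total a c with h1 | h1
      · refine ⟨c, List.mem_cons_of_mem _ hc, fun b hb => ?_⟩
        rcases List.mem_cons.mp hb with rfl | hb
        · exact h1
        · exact hmax b hb
      · refine ⟨a, List.mem_cons_self, fun b hb => ?_⟩
        rcases List.mem_cons.mp hb with rfl | hb
        · exact le_rfl
        · exact (hmax b hb).trans h1

theorem maxL_nil : maxL [] = 0 := rfl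

theorem maxL_spec {l : List ℕ} (h : l ≠ []) : maxL l ∈ l ∧ ∀ b ∈ l, b ≤ maxL l := by
  obtain ⟨a, ha, hmax⟩ := exists_max l h
  have h1 : a ∈ l.filter fun a => l.all fun b => decide (b ≤ a) := by
    rw [List.mem_filter]
    refine ⟨ha, ?_⟩
    rw [List.all_eq_true]
    intro b hb
    simpa using hmax b hb
  have h2 : maxL l ∈ l.filter fun a => l.all fun b => decide (b ≤ a) := by
    unfold maxL
    cases hl : l.filter fun a => l.all fun b => decide (b ≤ a) with
    | nil => rw [hl] at h1; exact absurd h1 (by simp)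
    | cons c t => exact List.mem_cons_self
  rw [List.mem_filter, List.all_eq_true] at h2
  exact ⟨h2.1, fun b hb => by simpa using h2.2 b hb⟩

theorem PTime.maxL {l : γ → List ℕ} (hl : PTime O l) : PTime O (fun a => CKP.maxL (l a)) := by
  unfold CKP.maxL
  refine PTime.headD ?_ (PTime.const 0)
  refine PTime.filter (f := fun a (x : ℕ) => (l a).all fun b => decide (b ≤ x)) hl ?_
  exact PTime.all (f := fun (p : γ × ℕ) (b : ℕ) => decide (b ≤ p.2)) (hl.comp PTime.id.fst)
    (PTime.nat_le PTime.id.snd PTime.id.fst.snd)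

/-! ### the table -/

/-- the value of a comparison, if `j` comparisons of the list `Θ` are true -/
def valT (ℓ : ℕ → ℕ) (Θ : List (List Unit × ℕ)) (j : ℕ) (p : List Unit × ℕ) : Bool :=
  decide ((Θ.filter fun p' => decide (p.2 * 2 ^ ℓ p'.1.length ≤ p'.2 * 2 ^ ℓ p.1.length)).length ≤ j)

/-- a table with these values -/
def tabT (ℓ : ℕ → ℕ) (Θ : List (List Unit × ℕ)) (j : ℕ) (N : List Unit) : List (Bool × ℕ) :=
  (rangeU N).map fun u => (true, maxL ((Θ.filter fun p =>
    decide (p.1.length = u.length) && !valT ℓ Θ j p).map Prod.snd))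

theorem PTime.valT {ℓ : ℕ → ℕ} (hl : UPoly O ℓ) {Θ : γ → List (List Unit × ℕ)} {j : γ → ℕ}
    {p : γ → List Unit × ℕ} (hΘ : PTime O Θ) (hj : PTime O j) (hp : PTime O p) :
    PTime O (fun a => CKP.valT ℓ (Θ a) (j a) (p a)) := by
  unfold CKP.valT
  refine PTime.nat_le (PTime.length ?_) hj
  refine PTime.filter (f := fun a (p' : List Unit × ℕ) =>
    decide ((p a).2 * 2 ^ ℓ p'.1.length ≤ p'.2 * 2 ^ ℓ (p a).1.length)) hΘ ?_
  have h1 : PTime O (fun q : γ × (List Unit × ℕ) => List.replicate (ℓ q.2.1.length) ()) :=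
    UPoly.comp hl PTime.id.snd.fst
  have h2 : PTime O (fun q : γ × (List Unit × ℕ) => List.replicate (ℓ (p q.1).1.length) ()) :=
    UPoly.comp hl (hp.comp PTime.id.fst).fst
  have h3 := PTime.mulp h1 (hp.comp PTime.id.fst).snd
  have h4 := PTime.mulp h2 (PTime.id (O := O) (α := γ × (List Unit × ℕ))).snd.snd
  simp only [List.length_replicate] at h3 h4
  exact PTime.nat_le h3 h4

theorem PTime.tabT {ℓ : ℕ → ℕ} (hl : UPoly O ℓ) {Θ : γ → List (List Unit × ℕ)} {j : γ → ℕ}
    {N : γ → List Unit} (hΘ : PTime O Θ) (hj : PTime O j) (hN : PTime O N) :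
    PTime O (fun a => CKP.tabT ℓ (Θ a) (j a) (N a)) := by
  unfold CKP.tabT
  refine PTime.map (f := fun a (u : List Unit) => (true, CKP.maxL (((Θ a).filter fun p =>
    decide (p.1.length = u.length) && !CKP.valT ℓ (Θ a) (j a) p).map Prod.snd)))
    (PTime.rangeU hN) ?_
  refine (PTime.const true).pair (PTime.maxL ?_)
  refine PTime.map (f := fun _ (p : List Unit × ℕ) => p.2) ?_ PTime.id.snd.snd
  refine PTime.filter (f := fun (q : γ × List Unit) (p : List Unit × ℕ) =>
    decide (p.1.length = q.2.length) && !CKP.valT ℓ (Θ q.1) (j q.1) p)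
    (hΘ.comp PTime.id.fst) ?_
  refine (PTime.nat_eq PTime.id.snd.fst.length PTime.id.fst.snd.length).and (PTime.not ?_)
  exact PTime.valT hl (hΘ.comp PTime.id.fst.fst) (hj.comp PTime.id.fst.fst) PTime.id.snd

/-- the number of the true comparisons -/
noncomputable def cntT (W : ℕ → ℕ → Bool) (Θ : List (List Unit × ℕ)) : ℕ :=
  (Θ.filter fun p => tmW W p.1.length p.2).length

theorem cntT_le (W : ℕ → ℕ → Bool) (Θ : List (List Unit × ℕ)) : cntT W Θ ≤ Θ.length :=
  List.length_filter_le _ _

theorem valT_eq {W : ℕ → ℕ → Bool} {ℓ : ℕ → ℕ} (hcut : Cut W ℓ) {Θ : List (List Unit × ℕ)}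
    {p : List Unit × ℕ} (hp : p ∈ Θ) : valT ℓ Θ (cntT W Θ) p = tmW W p.1.length p.2 := by
  unfold valT cntT
  rw [Bool.eq_iff_iff, decide_eq_true_eq]
  constructor
  · intro h
    by_contra hn
    refine absurd h (not_le.mpr (filt_lt ?_ ⟨p, hp, hn, ?_⟩))
    · intro p' hp' htm
      rw [decide_eq_true_eq]
      rcases Nat.le_total (p.2 * 2 ^ ℓ p'.1.length) (p'.2 * 2 ^ ℓ p.1.length) with h1 | h1
      · exact h1
      · exact absurd (hcut _ _ _ _ h1 htm) hn
    · rw [decide_eq_true_eq]
  · intro h
    refine filt_le fun p' hp' hle => ?_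
    rw [decide_eq_true_eq] at hle
    exact hcut _ _ _ _ hle h

/-- The table agrees with the table of least witnesses on `Θ`. -/
theorem tabT_agr {W : ℕ → ℕ → Bool} {ℓ : ℕ → ℕ} (hcut : Cut W ℓ)
    (htot : ∀ m, ∃ v, W m v = true) {Θ : List (List Unit × ℕ)} {N : List Unit}
    (hN : ∀ p ∈ Θ, p.1.length < N.length) {T : List (Bool × ℕ)}
    (hT : ∀ i < N.length, LeastSpec W i (ent T i)) : AgrT (tabT ℓ Θ (cntT W Θ) N) T Θ := by
  intro p hp
  have hlt := hN p hp
  obtain ⟨n, rfl⟩ : ∃ n, N = List.replicate n () := ⟨_, units_eq N⟩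
  rw [List.length_replicate] at hlt
  have hent : ent (tabT ℓ Θ (cntT W Θ) (List.replicate n ())) p.1.length = (true, maxL ((Θ.filter
      fun p' => decide (p'.1.length = p.1.length) && !valT ℓ Θ (cntT W Θ) p').map Prod.snd)) := by
    unfold tabT
    rw [rangeU_replicate, List.map_map, ent_map_range _ _ _ hlt]
    simp only [Function.comp_apply, List.length_replicate]
  have hs := hT p.1.length (by rw [List.length_replicate]; exact hlt)
  have h1 : (ent T p.1.length).1 = true := hs.1.mpr (htot _)
  have h2 := hs.2 h1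
  have htm : tmW W p.1.length p.2 = true ↔ (ent T p.1.length).2 < p.2 := by
    unfold tmW
    rw [decide_eq_true_eq]
    constructor
    · rintro ⟨v, hv, hW⟩
      refine lt_of_le_of_lt ?_ hv
      by_contra h3
      exact h2.2 v (not_le.mp h3) hW
    · intro h3
      exact ⟨_, h3, h2.1⟩
  rw [hent]
  refine ⟨h1.symm, ?_⟩
  rw [← htm]
  simp only
  set l := (Θ.filter fun p' => decide (p'.1.length = p.1.length) &&
    !valT ℓ Θ (cntT W Θ) p').map Prod.snd with hl
  have hmem : ∀ u ∈ l, ∃ p' ∈ Θ, p'.1.length = p.1.length ∧ p'.2 = u ∧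
      ¬ tmW W p'.1.length p'.2 = true := by
    intro u hu
    rw [hl, List.mem_map] at hu
    obtain ⟨p', hp', rfl⟩ := hu
    rw [List.mem_filter, Bool.and_eq_true, decide_eq_true_eq, Bool.not_eq_true'] at hp'
    refine ⟨p', hp'.1, hp'.2.1, rfl, ?_⟩
    rw [← valT_eq hcut hp'.1, hp'.2.2]
    simp
  constructor
  · intro h3
    by_contra h4
    have h5 : p.2 ∈ l := by
      rw [hl, List.mem_map]
      refine ⟨p, List.mem_filter.mpr ⟨hp, ?_⟩, rfl⟩
      rw [valT_eq hcut hp]
      rw [Bool.not_eq_true] at h4
      simp [h4]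
    have h6 := (maxL_spec (List.ne_nil_of_mem h5)).2 _ h5
    omega
  · intro h3
    by_cases hnil : l = []
    · rw [hnil, maxL_nil]
      have h4 := htm.mp h3
      omega
    · obtain ⟨p', hp', h4, h5, h6⟩ := hmem _ (maxL_spec hnil).1
      rw [← h5]
      by_contra h7
      rw [not_lt] at h7
      refine h6 ?_
      rw [h4]
      exact tmW_mono _ _ _ h7 h3

end Pool.Agent.CKP
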