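import Pool.Agent.Lib_helper57.YT.B
import Pool.Agent.Lib_helper74.KY.Blk.Z2

/-!
# The decision procedure for a family of instances, from one number (MP_675993_lc)
-/

set_option autoImplicit false
set_option linter.unusedSectionVars false

namespace Pool.Agent.CKP

open Pool.Agent.CK

variable {O : Lang}
variable {α β γ δ : Type} [ToD α] [ToD β] [ToD γ] [ToD δ]

/-- all comparisons that can occur in the decisions of the instances in `Z` -/
def thsZ (W : ℕ → ℕ → Bool) (r k : ℕ) (Q : List Bool → List (List Bool)) (n0 : ℕ)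
    (Z : List (List Bool)) : List (List Unit × ℕ) :=
  Z.flatMap fun y => (closS W r k Q n0 y).flatMap fun z => (Q z).flatMap thsQ

/-- a bound for the numbers in the comparisons -/
def nT (Θ : List (List Unit × ℕ)) : List Unit := () :: Θ.flatMap fun p => p.1

theorem lt_nT {Θ : List (List Unit × ℕ)} {p : List Unit × ℕ} (hp : p ∈ Θ) :
    p.1.length < (nT Θ).length := by
  unfold nT
  rw [List.length_cons, List.length_flatMap]
  have : p.1.length ≤ (Θ.map fun p => p.1.length).sum :=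
    List.single_le_sum (fun _ _ => Nat.zero_le _) _ (List.mem_map.mpr ⟨p, hp, rfl⟩)
  omega

/-- the decision procedure; `j` is the number of the true comparisons -/
def decF (O : Lang) (W : ℕ → ℕ → Bool) (ℓ : ℕ → ℕ) (r k : ℕ) (Q : List Bool → List (List Bool))
    (V : List Bool → List Bool → Bool) (n0 : ℕ) (U : List Unit) (Θ : List (List Unit × ℕ)) (j : ℕ)
    (z : List Bool) : Bool :=
  decR O W r k Q V n0 U (tabT ℓ Θ j (nT Θ)) z

section

variable {W : ℕ → ℕ → Bool} {ℓ : ℕ → ℕ} {c k n0 : ℕ} {Q : List Bool → List (List Bool)}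
    {V : List Bool → List Bool → Bool}

theorem decF_eq (hcut : Cut W ℓ) (htot : ∀ m, ∃ v, W m v = true)
    (hUV : ∀ z, UK O z = V z ((Q z).map (CL O W (3 * (c + 1)) k))) (hn0 : 14 ≤ n0)
    {U : List Unit} (hU : 2 ^ n0 ≤ U.length) {P : Polynomial ℕ}
    (hP : ∀ z, ∀ q ∈ Q z, 3 * q.length + 1 < P.eval z.length) {Z : List (List Bool)} {b : ℕ}
    (hb : ∀ z ∈ Z, z.length ≤ b)
    (hshort : ∀ z : List Bool, n0 ≤ z.length → z.length ≤ b → ∀ q ∈ Q z, typ q = true →
      valid W (3 * (c + 1)) k q = true →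
      (∀ i < (wss q).length, LeastSpec W i (ent (wss q) i)) →
      (wss q).length < 2 * (z.length + 2) ^ c) {z : List Bool} (hz : z ∈ Z) :
    decF O W ℓ (3 * (c + 1)) k Q V n0 U (thsZ W (3 * (c + 1)) k Q n0 Z)
      (cntT W (thsZ W (3 * (c + 1)) k Q n0 Z)) z = UK O z := by
  set Θ := thsZ W (3 * (c + 1)) k Q n0 Z with hΘ
  obtain ⟨M, hM⟩ : ∃ M, M = P.eval b + (nT Θ).length := ⟨_, rfl⟩
  obtain ⟨T, hTdef⟩ : ∃ T, T = (List.range M).map (t1_e W) := ⟨_, rfl⟩
  have hT : ∀ i < M, LeastSpec W i (ent T i) := by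
    intro i hi
    rw [hTdef, ent_map_range _ _ _ hi]
    exact t1_spec W i
  have hagr : AgrT (tabT ℓ Θ (cntT W Θ) (nT Θ)) T Θ :=
    tabT_agr hcut htot (fun p hp => lt_nT hp) (fun i hi => hT i (by omega))
  unfold decF
  rw [decR_congr (T' := T)]
  · refine decR_eq hUV hn0 hU (fun z' h1 h2 => hshort z' h1 (h2.trans (hb z hz))) ?_
    intro z' hz' q hq i hi
    refine hT i ?_
    have h1 := hP z' q hq
    have h2 := poly_mono P (hz'.trans (hb z hz))
    omega
  · intro z' hz' q hq p hp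
    refine hagr p ?_
    rw [hΘ]
    unfold thsZ
    exact List.mem_flatMap.mpr ⟨z, hz, List.mem_flatMap.mpr ⟨z', hz',
      List.mem_flatMap.mpr ⟨q, hq, hp⟩⟩⟩

end

theorem PTime.thsQ {q : γ → List Bool} (hq : PTime O q) : PTime O (fun a => CKP.thsQ (q a)) := by
  unfold CKP.thsQ
  refine PTime.ite (PTime.typ hq) ?_ ?_
  · refine PTime.map (f := fun a (u : List Unit) => (u, (CKP.ent (CKP.wss (q a)) u.length).2))
      (PTime.rangeU (PTime.ulen (PTime.wss hq))) ?_
    exact PTime.id.snd.pair (PTime.ent (PTime.wss (hq.comp PTime.id.fst)) PTime.id.snd).snd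
  · exact PTime.cons ((PTime.ulen (PTime.colr hq)).pair (PTime.thr hq)) (PTime.const [])

theorem PTime.closS {W : ℕ → ℕ → Bool} {ℓ : ℕ → ℕ} (hver : Ver O W ℓ) (r k : ℕ)
    {Q : List Bool → List (List Bool)} (hQ : PTime O Q) {n0 : γ → ℕ} (hn0 : PTime O n0)
    {y : γ → List Bool} (hy : PTime O y) :
    PTime O (fun a => CKP.closS W r k Q (n0 a) (y a)) := by
  unfold CKP.closS
  exact (x1_closR hver r k hQ hn0 (PTime.const []) hy).fst

theorem PTime.thsZ {W : ℕ → ℕ → Bool} {ℓ : ℕ → ℕ} (hver : Ver O W ℓ) (r k : ℕ)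
    {Q : List Bool → List (List Bool)} (hQ : PTime O Q) {n0 : γ → ℕ} (hn0 : PTime O n0)
    {Z : γ → List (List Bool)} (hZ : PTime O Z) :
    PTime O (fun a => CKP.thsZ W r k Q (n0 a) (Z a)) := by
  unfold CKP.thsZ
  refine PTime.flatMap (f := fun a y => (CKP.closS W r k Q (n0 a) y).flatMap fun z =>
    (Q z).flatMap CKP.thsQ) hZ ?_
  refine PTime.flatMap (f := fun (_ : γ × List Bool) z => (Q z).flatMap CKP.thsQ)
    (PTime.closS hver r k hQ (hn0.comp PTime.id.fst) PTime.id.snd) ?_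
  exact PTime.flatMap (f := fun (_ : (γ × List Bool) × List Bool) q => CKP.thsQ q)
    (hQ.comp PTime.id.snd) (PTime.thsQ PTime.id.snd)

theorem PTime.nT {Θ : γ → List (List Unit × ℕ)} (hΘ : PTime O Θ) :
    PTime O (fun a => CKP.nT (Θ a)) := by
  unfold CKP.nT
  exact (PTime.const ()).cons (PTime.flatMap (f := fun _ (p : List Unit × ℕ) => p.1) hΘ
    PTime.id.snd.fst)

theorem PTime.decF {W : ℕ → ℕ → Bool} {ℓ : ℕ → ℕ} (hver : Ver O W ℓ) (r k : ℕ)
    {Q : List Bool → List (List Bool)} {V : List Bool → List Bool → Bool} (hQ : PTime O Q)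
    (hV : PTime O (fun p : List Bool × List Bool => V p.1 p.2)) {n0 : γ → ℕ} {U : γ → List Unit}
    (hn0 : PTime O n0) (hU : PTime O U) {Θ : γ → List (List Unit × ℕ)} (hΘ : PTime O Θ)
    {j : γ → ℕ} (hj : PTime O j) {z : γ → List Bool} (hz : PTime O z) :
    PTime O (fun a => CKP.decF O W ℓ r k Q V (n0 a) (U a) (Θ a) (j a) (z a)) := by
  unfold CKP.decF
  exact PTime.decR hver r k hQ hV hn0 hU (PTime.tabT hver.hl hΘ hj (PTime.nT hΘ)) hz

end Pool.Agent.CKP
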