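import Pool.Agent.Lib_helper74.KY.ClassesB

/-!
# Exponential time with nonadaptive queries to `NP`, for the machine model of `CKF.Defs`
-/

set_option autoImplicit false

namespace Pool.Agent.CK

/-- `L ∈ E_tt^(NP^O)`: for some `B ∈ NP^O`, `L` is decided in exponential time with nonadaptive
queries to `B`, relative to `O`.  On input `x` the program `q` writes down a list `l` of queries in
time `2 ^ (k (|x| + 1))` (`q` has access to `O`, not to `B`), and the program `c` decides `L x` in
this time from `x` and the list of the answers of `B` (on stack `1`). -/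
def InENPtt (O L : Lang) : Prop :=
  ∃ (B : Lang) (q c : Cmd) (k : ℕ), InNP O B ∧ ∀ x : List Bool, ∃ l : List (List Bool),
    Halts O q x [] (2 ^ (k * (x.length + 1))) ∧
    (run O q x [] (2 ^ (k * (x.length + 1)))).2 0 = l.flatMap code ∧
    Halts O c x (l.map B) (2 ^ (k * (x.length + 1))) ∧
    (Accepts O c x (l.map B) (2 ^ (k * (x.length + 1))) ↔ L x = true)

end Pool.Agent.CK
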