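import Pool.Agent.Lib_helper74.KY.ClassesB

/-!
# Exponential time with few rounds of queries to `NP`, for the machine model of `CKF.Defs`
-/

set_option autoImplicit false

namespace Pool.Agent.CK

/-- `L` is decided in exponential time with oracle `O` and `r ≤ 2 ^ (δ |x|) + b` rounds of
nonadaptive queries to some `B ∈ NP^O`.  In each round the program `q` writes down a list `l` of
queries in time `2 ^ (k (|x| + 1))`, from `x` and the answers `a i` of the rounds before (on
stack `1`); `q` has access to `O`, not to `B`.  It writes the empty list after the last round, and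
then the program `c` decides `L x` in this time from `x` and all answers. -/
def InENProunds (O : Lang) (δ : ℝ) (L : Lang) : Prop :=
  ∃ (B : Lang) (q c : Cmd) (k b : ℕ), InNP O B ∧
    ∀ x : List Bool, ∃ (r : ℕ) (a : ℕ → List Bool), (r : ℝ) ≤ (2 : ℝ) ^ (δ * x.length) + b ∧
      a 0 = [] ∧
      (∀ i < r, ∃ l : List (List Bool),
        Halts O q x (a i) (2 ^ (k * (x.length + 1))) ∧
        (run O q x (a i) (2 ^ (k * (x.length + 1)))).2 0 = l.flatMap code ∧
        a (i + 1) = a i ++ l.map B) ∧
      Halts O q x (a r) (2 ^ (k * (x.length + 1))) ∧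
      (run O q x (a r) (2 ^ (k * (x.length + 1)))).2 0 = [] ∧
      Halts O c x (a r) (2 ^ (k * (x.length + 1))) ∧
      (Accepts O c x (a r) (2 ^ (k * (x.length + 1))) ↔ L x = true)

/-- `L ∈ E^(NP^O)` with `2 ^ (o(n))` rounds of queries. -/
def InENPfewRounds (O L : Lang) : Prop := ∀ δ : ℝ, 0 < δ → InENProunds O δ L

end Pool.Agent.CK
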