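import Pool.Agent.Lib_helper57.YT.Classes
import Pool.Agent.Lib_helper74.NF.ENPB
import Pool.Agent.Lib_helper74.KY.Blk.R3

/-!
# Exponential time with nonadaptive queries: typed form, inclusion in `E^NP` (MP_675993_lc)
-/

set_option autoImplicit false
set_option linter.unusedSectionVars false

namespace Pool.Agent.CKP

open Pool.Agent.CK

variable {O : Lang}
variable {α β γ δ : Type} [ToD α] [ToD β] [ToD γ] [ToD δ]

/-- the queries of the program `q` on `x`, mapped by `g` -/
def qlF (O : Lang) (q : Cmd) (g : List Bool → List Bool) (N : List Unit) (x : List Bool) :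
    List (List Bool) :=
  (items (outU O (cmdD q) x [] N)).map g

theorem PTime.qlF (q : Cmd) {g : List Bool → List Bool} (hg : PTime O g) {N : γ → List Unit}
    {x : γ → List Bool} (hN : PTime O N) (hx : PTime O x) :
    PTime O (fun a => CKP.qlF O q g (N a) (x a)) := by
  unfold CKP.qlF
  exact PTime.map (f := fun _ w => g w)
    (PTime.items (PTime.outU (PTime.const (cmdD q)) hx (PTime.const []) hN))
    (hg.comp PTime.id.snd)

theorem qlF_eq {q : Cmd} {g : List Bool → List Bool} {x : List Bool} {l : List (List Bool)}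
    {t : ℕ} {N : List Unit} (h1 : Halts O q x [] t) (h2 : (run O q x [] t).2 0 = l.flatMap code)
    (hN : t ≤ N.length) : qlF O q g N x = l.map g := by
  unfold qlF
  rw [outU_eq, run_stable h1 hN, h2, items_code]

theorem accU_big {c : Cmd} {x a : List Bool} {t : ℕ} {N : List Unit} {L : Lang}
    (h1 : Halts O c x a t) (h2 : Accepts O c x a t ↔ L x = true) (hN : t ≤ N.length) :
    accU O (cmdD c) x a N = L x := by
  rw [Bool.eq_iff_iff, accU_iff, ← h2]
  unfold Accepts
  rw [run_stable h1 hN]

theorem d_arith (n k : ℕ) :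
    n + (2 ^ (k * (n + 1)) + ((2 * 2 ^ (k * (n + 1)) + 1) + (4 * n + 1) + 1 + 0)) + 2 ≤
      2 ^ ((k + 5) * (n + 1)) := by
  have h1 : n + 1 ≤ 2 ^ (n + 1) := by
    have : n + 1 < 2 ^ (n + 1) := Nat.lt_two_pow_self
    omega
  have h2 : 1 ≤ 2 ^ (k * (n + 1)) := Nat.one_le_two_pow
  have h3 : 2 ^ ((k + 5) * (n + 1)) = 2 ^ (k * (n + 1)) * (2 ^ (4 * (n + 1)) * 2 ^ (n + 1)) := by
    rw [← pow_add, ← pow_add]
    congr 1
    ring
  have h4 : 16 ≤ 2 ^ (4 * (n + 1)) := by
    calc 16 = 2 ^ 4 := by norm_num
      _ ≤ 2 ^ (4 * (n + 1)) := Nat.pow_le_pow_right (by norm_num) (by omega)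
  rw [h3]
  set E := 2 ^ (k * (n + 1))
  set S := 2 ^ (n + 1)
  have h5 : E * (16 * S) ≤ E * (2 ^ (4 * (n + 1)) * S) :=
    Nat.mul_le_mul_left _ (Nat.mul_le_mul_right _ h4)
  refine le_trans ?_ h5
  nlinarith [Nat.mul_le_mul h2 h1]

theorem enp_of_tt {L : Lang} (hL : InENPtt O L) : InENP O L := by
  obtain ⟨B, q, c, k, hB, h⟩ := hL
  refine ⟨B, hB, ?_⟩
  have hF : PTime (join O B) (fun p : List Unit × List Bool =>
      accU O (cmdD c) p.2 ((items (outU O (cmdD q) p.2 [] p.1)).map B) p.1) := by
    have h1 : PTime (join O B) (fun p : List Unit × List Bool × List Bool =>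
        accU O (cmdD c) p.2.1 p.2.2 p.1) :=
      PTime.lift (PTime.accU (PTime.const (cmdD c)) PTime.id.snd.fst PTime.id.snd.snd PTime.id.fst)
    have h2 : PTime (join O B) (fun p : List Unit × List Bool =>
        items (outU O (cmdD q) p.2 [] p.1)) :=
      PTime.lift (PTime.items (PTime.outU (PTime.const (cmdD q)) PTime.id.snd (PTime.const [])
        PTime.id.fst))
    have h3 : PTime (join O B) (fun p : List Unit × List Bool =>
        (items (outU O (cmdD q) p.2 [] p.1)).map B) :=
      PTime.map (f := fun _ w => B w) h2 (PTime.askR PTime.id.snd)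
    exact h1.comp (PTime.id.fst.pair (PTime.id.snd.pair h3))
  have he : PTime (join O B) (fun x : List Bool => List.replicate (k * (x.length + 1)) ()) :=
    UPoly.comp (g := fun n => k * (n + 1)) ((UPoly.const k).mul (UPoly.id.add (UPoly.const 1)))
      PTime.id
  have hX := (XT.of_ptime hF (fun _ => 0)).comp (XT.exp he)
  simp only [List.length_replicate] at hX
  have hval : ∀ x : List Bool, accU O (cmdD c) x
      ((items (outU O (cmdD q) x [] (List.replicate (2 ^ (k * (x.length + 1))) ()))).map B)
      (List.replicate (2 ^ (k * (x.length + 1))) ()) = L x := by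
    intro x
    obtain ⟨l, h1, h2, h3, h4⟩ := h x
    have h5 := qlF_eq (g := id) (N := List.replicate (2 ^ (k * (x.length + 1))) ()) h1 h2
      (by rw [List.length_replicate])
    unfold qlF at h5
    rw [List.map_id, List.map_id] at h5
    rw [h5]
    exact accU_big h3 h4 (by rw [List.length_replicate])
  have hX' : XT (join O B) L (fun x => 2 ^ (k * (x.length + 1)) +
      (sz (List.replicate (2 ^ (k * (x.length + 1))) (), x) + 0)) := by
    have : L = fun x => accU O (cmdD c) x
      ((items (outU O (cmdD q) x [] (List.replicate (2 ^ (k * (x.length + 1))) ()))).map B)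
      (List.replicate (2 ^ (k * (x.length + 1))) ()) := funext fun x => (hval x).symm
    rw [this]
    exact hX
  obtain ⟨p, P, hp⟩ := hX'.run_dec
  obtain ⟨a, ha⟩ := exists_pow P
  refine ⟨p, (k + 5) * a, fun x => ?_⟩
  obtain ⟨t, ht, h1, h2⟩ := hp x
  have ht' : t ≤ 2 ^ ((k + 5) * a * (x.length + 1)) := by
    refine ht.trans ((ha _).trans ?_)
    have h3 : 2 ^ ((k + 5) * a * (x.length + 1)) = (2 ^ ((k + 5) * (x.length + 1))) ^ a := by
      rw [← pow_mul]
      congr 1
      ring
    rw [h3]
    refine Nat.pow_le_pow_left ?_ a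
    refine le_trans ?_ (d_arith x.length k)
    have h4 : sz (List.replicate (2 ^ (k * (x.length + 1))) ()) =
        2 * 2 ^ (k * (x.length + 1)) + 1 := by
      rw [sz_units, List.length_replicate]
    have h5 : sz x ≤ 4 * x.length + 1 := size_bits x
    rw [sz_pair, h4]
    omega
  have hrun := run_stable h1 ht'
  constructor
  · unfold Halts at h1 ⊢
    rw [hrun]
    exact h1
  · rw [← h2]
    unfold Accepts
    rw [hrun]

end Pool.Agent.CKP
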