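import Pool.Agent.Lib_helper57.YT.C
import Pool.Agent.Lib_helper57.YT.D

/-!
# Truth-table completeness: `E^NP` with nonadaptive queries, without alternative (MP_675993_lc)
-/

set_option autoImplicit false
set_option linter.unusedSectionVars false

namespace Pool.Agent.CKP

open Pool.Agent.CK

variable {O : Lang}
variable {α β γ δ : Type} [ToD α] [ToD β] [ToD γ] [ToD δ]

/-! ### the advice -/

theorem items_code_append (x r : List Bool) : items (CK.code x ++ r) = x :: items r := by
  unfold CK.code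
  induction x with
  | nil => simp [items]
  | cons b t ih =>
    have h1 : (List.flatMap (fun b => [true, b]) (b :: t) ++ [false]) ++ r =
        true :: b :: ((List.flatMap (fun b => [true, b]) t ++ [false]) ++ r) := by
      simp
    rw [h1, items, ih]

theorem length_code (x : List Bool) : (CK.code x).length = 2 * x.length + 1 := by
  unfold CK.code
  rw [List.length_append, List.length_singleton, List.length_flatMap]
  congr 1
  induction x with
  | nil => rfl
  | cons b t ih => rw [List.map_cons, List.sum_cons, ih, List.length_cons]; simp; omega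

/-- the first number in an advice -/
def adv1 (w : List Bool) : ℕ := ofBits ((items w).headD [])
/-- the second number in an advice -/
def adv2 (w : List Bool) : ℕ := ofBits ((items w).tail.headD [])

/-- the advice for two numbers, with padding -/
def advP (m j pad : ℕ) : List Bool :=
  CK.code m.bits ++ (CK.code j.bits ++ List.replicate pad false)

theorem adv1_advP (m j pad : ℕ) : adv1 (advP m j pad) = m := by
  unfold adv1 advP
  rw [items_code_append, List.headD_cons, ofBits_bits]

theorem adv2_advP (m j pad : ℕ) : adv2 (advP m j pad) = j := by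
  unfold adv2 advP
  rw [items_code_append, List.tail_cons, items_code_append, List.headD_cons, ofBits_bits]

theorem length_advP (m j pad : ℕ) :
    (advP m j pad).length = (2 * m.size + 1) + ((2 * j.size + 1) + pad) := by
  unfold advP
  rw [List.length_append, List.length_append, List.length_replicate, length_code, length_code,
    Nat.size_eq_bits_len, Nat.size_eq_bits_len]

theorem PTime.adv1 {w : γ → List Bool} (hw : PTime O w) : PTime O (fun a => CKP.adv1 (w a)) := by
  unfold CKP.adv1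
  exact PTime.ofBits (PTime.headD (PTime.items hw) (PTime.const []))

theorem PTime.adv2 {w : γ → List Bool} (hw : PTime O w) : PTime O (fun a => CKP.adv2 (w a)) := by
  unfold CKP.adv2
  exact PTime.ofBits (PTime.headD (PTime.tail (PTime.items hw)) (PTime.const []))

/-! ### numbers -/

theorem e_grow (C : ℕ) : ∃ t0 : ℕ, ∀ t : ℕ, t0 ≤ t → C * (t + 1) ≤ 2 ^ t := by
  refine ⟨4 * C, fun t ht => ?_⟩
  obtain ⟨a, ha⟩ : ∃ a, a = t / 2 := ⟨_, rfl⟩
  obtain ⟨b, hb⟩ : ∃ b, b = t - a := ⟨_, rfl⟩
  have h1 : a + 1 ≤ 2 ^ a := Nat.lt_two_pow_self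
  have h2 : b + 1 ≤ 2 ^ b := Nat.lt_two_pow_self
  have h3 : t = a + b := by omega
  have h4 : t + 1 ≤ 2 * (a + 1) := by omega
  have h5 : t + 1 ≤ 2 * (b + 1) := by omega
  have h6 : (a + 1) * (b + 1) ≤ 2 ^ t := by
    rw [h3, pow_add]
    exact Nat.mul_le_mul h1 h2
  nlinarith [Nat.mul_le_mul h4 h5]

/-- the parameters of the advice -/
theorem e_par {e e2 : ℕ} (he : 1 ≤ e) : ∃ M : ℕ, 14 ≤ M ∧ ∀ m0 : ℕ, M ≤ m0 → ∃ lam : ℕ,
    (lam + 2) ^ e ≤ 2 ^ m0 ∧ 2 ^ m0 ≤ 2 ^ e * (lam + 2) ^ e ∧ m0 ≤ lam ∧ lam ≤ 2 ^ m0 ∧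
    ∀ j : ℕ, j ≤ (lam + 2) ^ e2 → (2 * m0.size + 1) + (2 * j.size + 1) ≤ lam := by
  obtain ⟨t0, ht0⟩ := e_grow (2 * e + 2 * e2 + 8)
  refine ⟨max 14 (e * t0), le_max_left _ _, fun m0 hm0 => ?_⟩
  obtain ⟨t, ht⟩ : ∃ t, t = m0 / e := ⟨_, rfl⟩
  have h1 : t0 ≤ t := by
    rw [ht, Nat.le_div_iff_mul_le (by omega), mul_comm]
    exact (le_max_right _ _).trans hm0
  have h2 := ht0 t h1
  have h3 : e * t ≤ m0 := by
    rw [ht]
    exact Nat.mul_div_le m0 e
  have h4 : m0 < e * (t + 1) := by
    rw [ht]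
    exact Nat.lt_mul_div_succ m0 (by omega)
  have h14 : 14 ≤ m0 := (le_max_left _ _).trans hm0
  have h5 : 2 ≤ 2 ^ t := by nlinarith
  obtain ⟨lam, hlam⟩ : ∃ lam, lam + 2 = 2 ^ t := ⟨2 ^ t - 2, by omega⟩
  have hm : m0 ≤ lam := by nlinarith
  refine ⟨lam, ?_, ?_, hm, ?_, ?_⟩
  · rw [hlam, ← pow_mul]
    exact Nat.pow_le_pow_right (by norm_num) (by rw [mul_comm]; exact h3)
  · rw [hlam, ← pow_mul, ← pow_add]
    exact Nat.pow_le_pow_right (by norm_num) (by nlinarith)
  · have h6 : 2 ^ t ≤ 2 ^ m0 := Nat.pow_le_pow_right (by norm_num) (by nlinarith)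
    omega
  · intro j hj
    have h7 : m0.size ≤ m0 := Nat.size_le.mpr Nat.lt_two_pow_self
    have h8 : j.size ≤ t * e2 + 1 := by
      rw [Nat.size_le]
      rw [hlam, ← pow_mul] at hj
      refine lt_of_le_of_lt hj ?_
      exact Nat.pow_lt_pow_right (by norm_num) (by omega)
    nlinarith

end Pool.Agent.CKP
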