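import Pool.Agent.Lib_helper57.YT.E

/-!
# Truth-table completeness makes `E_tt^NP` compressible (MP_675993_lc): the theorem
-/

set_option autoImplicit false
set_option linter.unusedSectionVars false

namespace Pool.Agent.CKP

open Pool.Agent.CK

variable {O : Lang}
variable {α β γ δ : Type} [ToD α] [ToD β] [ToD γ] [ToD δ]

/-- all inputs with a number below `2 (|lam| + 2) ^ c` -/
def xsF (c : ℕ) (lam : List Unit) : List (List Bool) :=
  (rangeU (List.replicate (2 * (lam.length + 2) ^ c) ())).map fun u => str u.length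

/-- time for the programs on these inputs -/
def tmF (c k : ℕ) (lam : List Unit) : List Unit :=
  List.replicate ((4 * (lam.length + 2) ^ c) ^ k) ()

/-- all queries on these inputs -/
def zsF (O : Lang) (q : Cmd) (g : List Bool → List Bool) (c k : ℕ) (lam : List Unit) :
    List (List Bool) :=
  (xsF c lam).flatMap fun x => qlF O q g (tmF c k lam) x

theorem mem_xsF {c : ℕ} {lam : List Unit} {x : List Bool} (h : num x < 2 * (lam.length + 2) ^ c) :
    x ∈ xsF c lam := by
  unfold xsF
  rw [List.mem_map]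
  refine ⟨List.replicate (num x) (), mem_rangeU.mpr ?_, ?_⟩
  · rw [List.length_replicate, List.length_replicate]
    exact h
  · rw [List.length_replicate, str_num]

theorem tmF_le {c k : ℕ} {lam : List Unit} {x : List Bool}
    (h : num x < 2 * (lam.length + 2) ^ c) : 2 ^ (k * (x.length + 1)) ≤ (tmF c k lam).length := by
  unfold tmF
  rw [List.length_replicate, mul_comm, pow_mul]
  refine Nat.pow_le_pow_left ?_ k
  have h1 := two_pow_str (num x)
  rw [str_num] at h1
  omega

theorem xsF_ptime (c : ℕ) : PTime O (xsF c) := by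
  unfold xsF
  refine PTime.map (f := fun _ (u : List Unit) => str u.length) (PTime.rangeU ?_)
    (PTime.comp (g := fun u : List Unit => str u.length) str_ptime PTime.id.snd)
  exact ((UPoly.const 2).mul (UPoly.tb c)).comp PTime.id

theorem tmF_ptime (c k : ℕ) : PTime O (tmF c k) := by
  unfold tmF
  exact (((UPoly.const 4).mul (UPoly.tb c)).pow k).comp PTime.id

theorem zsF_ptime (q : Cmd) {g : List Bool → List Bool} (hg : PTime O g) (c k : ℕ) :
    PTime O (zsF O q g c k) := by
  unfold zsF
  exact PTime.flatMap (f := fun lam x => qlF O q g (tmF c k lam) x) (xsF_ptime c)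
    (PTime.qlF q hg ((tmF_ptime c k).comp PTime.id.fst) PTime.id.snd)

/-- the answer on `x` in the case without keys -/
def ansF (O : Lang) (W : ℕ → ℕ → Bool) (ℓ : ℕ → ℕ) (r kk : ℕ) (Q : List Bool → List (List Bool))
    (V : List Bool → List Bool → Bool) (q0 c0 : Cmd) (g : List Bool → List Bool) (c k0 e : ℕ)
    (x w : List Bool) : Bool :=
  accU O (cmdD c0) x ((qlF O q0 g (tmF c k0 (ulen w)) x).map fun z =>
    decF O W ℓ r kk Q V (adv1 w) (List.replicate (2 ^ e * ((ulen w).length + 2) ^ e) ())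
      (thsZ W r kk Q (adv1 w) (zsF O q0 g c k0 (ulen w))) (adv2 w) z) (tmF c k0 (ulen w))

theorem PTime.ansF {W : ℕ → ℕ → Bool} {ℓ : ℕ → ℕ} (hver : Ver O W ℓ) (r kk : ℕ)
    {Q : List Bool → List (List Bool)} {V : List Bool → List Bool → Bool} (hQ : PTime O Q)
    (hV : PTime O (fun p : List Bool × List Bool => V p.1 p.2)) (q0 c0 : Cmd)
    {g : List Bool → List Bool} (hg : PTime O g) (c k0 e : ℕ) :
    PTime O (fun p : List Bool × List Bool => CKP.ansF O W ℓ r kk Q V q0 c0 g c k0 e p.1 p.2) := by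
  unfold CKP.ansF
  have hl : PTime O (fun p : List Bool × List Bool => CKP.ulen p.2) := PTime.ulen PTime.id.snd
  have ht : PTime O (fun p : List Bool × List Bool => CKP.tmF c k0 (CKP.ulen p.2)) :=
    (tmF_ptime c k0).comp hl
  refine PTime.accU (PTime.const (cmdD c0)) PTime.id.fst ?_ ht
  refine PTime.map (f := fun (p : List Bool × List Bool) z =>
    CKP.decF O W ℓ r kk Q V (CKP.adv1 p.2)
      (List.replicate (2 ^ e * ((CKP.ulen p.2).length + 2) ^ e) ())
      (CKP.thsZ W r kk Q (CKP.adv1 p.2) (CKP.zsF O q0 g c k0 (CKP.ulen p.2))) (CKP.adv2 p.2) z)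
    (PTime.qlF q0 hg ht PTime.id.fst) ?_
  have hw : PTime O (fun p : (List Bool × List Bool) × List Bool => p.1.2) := PTime.id.fst.snd
  refine PTime.decF hver r kk hQ hV (PTime.adv1 hw) ?_ ?_ (PTime.adv2 hw) PTime.id.snd
  · exact ((UPoly.const (2 ^ e)).mul (UPoly.tb e)).comp (PTime.ulen hw)
  · exact PTime.thsZ hver r kk hQ (PTime.adv1 hw) ((zsF_ptime q0 hg c k0).comp (PTime.ulen hw))

theorem often_tt (hneg : ∀ C, TuringComplete O C → TTComplete O C) (ε : ℝ) (L : Lang)
    (hε : 0 < ε) (hL : InENPtt O L) : InOftenEadvice O ε L := by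
  obtain ⟨c, hc1, hcε⟩ := exists_r hε
  obtain ⟨W0, ℓ0, ans0, hver0, hans0, hansL0⟩ := core_search (enp_of_tt hL)
  obtain ⟨W, hW⟩ : ∃ W, W = WT2 W0 ℓ0 := ⟨_, rfl⟩
  obtain ⟨ℓ, hℓ⟩ : ∃ ℓ, ℓ = lenT ℓ0 := ⟨_, rfl⟩
  have hver : Ver O W ℓ := by rw [hW, hℓ]; exact ver_WT2 hver0
  have hcut : Cut W ℓ := by rw [hW, hℓ]; exact cut_WT2 hver0.hb
  have htot : ∀ m, ∃ v, W m v = true := by
    intro m
    rw [hW]
    exact ⟨_, NN_valid hver0.hb (m + 1)⟩
  obtain ⟨ans, hans', hans⟩ : ∃ ans : List Unit → ℕ → Bool,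
      (ans = fun u v => ans0 u (v % 2 ^ (ℓ0 u.length + 1))) ∧
      PTime O (fun p : List Unit × ℕ => ans p.1 p.2) := by
    refine ⟨_, rfl, ?_⟩
    have h1 : PTime O (fun p : List Unit × ℕ => List.replicate (ℓ0 p.1.length + 1) ()) :=
      UPoly.comp (g := fun n => ℓ0 n + 1) (UPoly.add hver0.hl (UPoly.const 1)) PTime.id.fst
    have h2 := PTime.modp h1 (PTime.id (O := O) (α := List Unit × ℕ)).snd
    simp only [List.length_replicate] at h2
    exact hans0.comp (PTime.id.fst.pair h2)
  have hansL : ∀ (x : List Bool) (s : Bool × ℕ), LeastSpec W (num x) s →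
      ans (List.replicate (num x) ()) s.2 = L x := by
    intro x s hs
    rw [hW] at hs
    obtain ⟨t, ht⟩ := least_WT2 hver0.hb hs
    have h1 := hansL0 x _ ht
    rw [hans']
    simp only [List.length_replicate]
    exact h1
  obtain ⟨B, q0, c0, k0, hB, h0⟩ := hL
  obtain ⟨g, hgP, hg⟩ := UK_hard hB
  obtain ⟨k, hk⟩ := CL_complete hver
  obtain ⟨Q, V, hQ, hV, hUV⟩ := tt_data ((hneg _ (hk (3 * (c + 1)) (by omega))).2 (UK O) UK_inNP)
  obtain ⟨P, hP⟩ := exists_qbound hQ
  -- the size of the queries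
  obtain ⟨PZ, hPZ⟩ := (zsF_ptime (O := O) q0 hgP c k0).size_le
  obtain ⟨e', he'⟩ := exists_pow (PZ.comp (2 * Polynomial.X + 1))
  obtain ⟨e, he⟩ : ∃ e, e = e' + 1 := ⟨_, rfl⟩
  have hZlen : ∀ lam : List Unit, ∀ z ∈ zsF O q0 g c k0 lam, z.length ≤ (lam.length + 2) ^ e := by
    intro lam z hz
    have h1 : z.length ≤ sz z := length_le_sz z
    have h2 : sz z ≤ sz (zsF O q0 g c k0 lam) := sz_le_of_mem hz
    have h3 := hPZ lam
    have h4 := he' lam.length
    rw [sz_units] at h3
    simp only [Polynomial.eval_comp, Polynomial.eval_add, Polynomial.eval_mul,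
      Polynomial.eval_ofNat, Polynomial.eval_X, Polynomial.eval_one] at h4
    refine (h1.trans (h2.trans (h3.trans (h4.trans ?_))))
    exact Nat.pow_le_pow_right (by omega) (by omega)
  -- the number of comparisons
  obtain ⟨PT, hPT⟩ := (PTime.thsZ (O := O) hver (3 * (c + 1)) k hQ
    (γ := List Unit × ℕ) (n0 := fun p => p.2) (Z := fun p => zsF O q0 g c k0 p.1) PTime.id.snd
    ((zsF_ptime q0 hgP c k0).comp PTime.id.fst)).size_le
  obtain ⟨e2, he2⟩ := exists_pow (PT.comp (6 * Polynomial.X + 3))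
  have hTlen : ∀ (lam : List Unit) (m0 : ℕ), m0 ≤ lam.length →
      (thsZ W (3 * (c + 1)) k Q m0 (zsF O q0 g c k0 lam)).length ≤ (lam.length + 2) ^ e2 := by
    intro lam m0 hm
    have h1 := length_le_sz (thsZ W (3 * (c + 1)) k Q m0 (zsF O q0 g c k0 lam))
    have h2 : sz (thsZ W (3 * (c + 1)) k Q m0 (zsF O q0 g c k0 lam)) ≤ PT.eval (sz (lam, m0)) :=
      hPT (lam, m0)
    have h3 : sz (lam, m0) ≤ 6 * lam.length + 3 := by
      rw [sz_pair, sz_units]
      have := sz_nat_self m0
      omega
    have h4 := he2 lam.length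
    simp only [Polynomial.eval_comp, Polynomial.eval_add, Polynomial.eval_mul,
      Polynomial.eval_ofNat, Polynomial.eval_X] at h4
    exact h1.trans (h2.trans ((poly_mono PT h3).trans h4))
  obtain ⟨M, hM14, hM⟩ := e_par (e := e) (e2 := e2) (by omega)
  -- the program
  have hkeyP : PTime O (fun p : List Bool × List Bool =>
      (keyK W (3 * (c + 1)) k ans p.1 (Q p.2)).headD false) :=
    PTime.headD (PTime.keyK hver (3 * (c + 1)) k hans PTime.id.fst (hQ.comp PTime.id.snd))
      (PTime.const false)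
  have hansF := PTime.ansF hver (3 * (c + 1)) k hQ hV q0 c0 hgP c k0 e
  have hVP : PTime O (fun p : List Bool × List Bool => if p.2.headD false = true then
      ansF O W ℓ (3 * (c + 1)) k Q V q0 c0 g c k0 e p.1 p.2.tail
      else (keyK W (3 * (c + 1)) k ans p.1 (Q p.2.tail)).headD false) := by
    have ht : PTime O (fun p : List Bool × List Bool => (p.1, p.2.tail)) :=
      PTime.id.fst.pair PTime.id.snd.tail
    exact PTime.ite (PTime.headD PTime.id.snd (PTime.const false))
      (PTime.comp (g := fun p : List Bool × List Bool =>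
        ansF O W ℓ (3 * (c + 1)) k Q V q0 c0 g c k0 e p.1 p.2) hansF ht)
      (PTime.comp (g := fun p : List Bool × List Bool =>
        (keyK W (3 * (c + 1)) k ans p.1 (Q p.2)).headD false) hkeyP ht)
  refine often_of hc1 hcε (V := fun x w => if w.headD false = true then
      ansF O W ℓ (3 * (c + 1)) k Q V q0 c0 g c k0 e x w.tail
      else (keyK W (3 * (c + 1)) k ans x (Q w.tail)).headD false)
    hVP (M := M) fun m0 hm0 => ?_
  by_cases hkey : ∃ z : List Bool, m0 ≤ z.length ∧ z.length ≤ 2 ^ m0 ∧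
      ∀ x : List Bool, 2 ^ x.length ≤ (z.length + 2) ^ c →
        keyK W (3 * (c + 1)) k ans x (Q z) = [L x]
  · -- the key is the advice
    obtain ⟨z, hz1, hz2, hz⟩ := hkey
    refine ⟨false :: z, by simp; omega, by simpa using hz2, fun x hx => ?_⟩
    have h1 := hz x (by simpa using hx)
    simp [h1]
  · -- the advice is the number of true comparisons
    push Not at hkey
    have hshort : ∀ z : List Bool, m0 ≤ z.length → z.length ≤ 2 ^ m0 → ∀ q ∈ Q z,
        typ q = true → valid W (3 * (c + 1)) k q = true →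
        (∀ i < (wss q).length, LeastSpec W i (ent (wss q) i)) →
        (wss q).length < 2 * (z.length + 2) ^ c := by
      intro z hz1 hz2 q hq h1 h2 h3
      obtain ⟨x, hx1, hx2⟩ := hkey z hz1 hz2
      by_contra hcon
      rw [not_lt] at hcon
      refine hx2 ?_
      have hlt : num x < (wss q).length := by
        have g6 := num_lt x
        rw [pow_succ] at g6
        omega
      exact keyK_eq (hansL x) hq h1 h2 hlt (h3 _ hlt)
    obtain ⟨lam, hl1, hl2, hl3, hl4, hl5⟩ := hM m0 hm0
    obtain ⟨lm, hlm⟩ : ∃ lm : List Unit, lm = List.replicate lam () := ⟨_, rfl⟩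
    have hlml : lm.length = lam := by rw [hlm, List.length_replicate]
    obtain ⟨Θ, hΘ⟩ : ∃ Θ, Θ = thsZ W (3 * (c + 1)) k Q m0 (zsF O q0 g c k0 lm) := ⟨_, rfl⟩
    obtain ⟨j, hj⟩ : ∃ j, j = cntT W Θ := ⟨_, rfl⟩
    have hjle : j ≤ (lam + 2) ^ e2 := by
      rw [hj]
      refine (cntT_le W Θ).trans ?_
      have h1 := hTlen lm m0 (by rw [hlml]; exact hl3)
      rw [hlml] at h1
      rw [hΘ]
      exact h1
    have h5 := hl5 j hjle
    obtain ⟨pad, hpad⟩ : ∃ pad, (2 * m0.size + 1) + ((2 * j.size + 1) + pad) = lam :=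
      ⟨lam - ((2 * m0.size + 1) + (2 * j.size + 1)), by omega⟩
    have hlen : (advP m0 j pad).length = lam := by rw [length_advP, hpad]
    refine ⟨true :: advP m0 j pad, ?_, ?_, fun x hx => ?_⟩
    · rw [List.length_cons, hlen]
      omega
    · rw [List.length_cons, hlen]
      omega
    · rw [List.length_cons, hlen] at hx
      show (if (true :: advP m0 j pad).headD false = true then
        ansF O W ℓ (3 * (c + 1)) k Q V q0 c0 g c k0 e x (true :: advP m0 j pad).tail
        else _) = L x
      rw [List.headD_cons, if_pos rfl, List.tail_cons]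
      unfold ansF
      have hul : ulen (advP m0 j pad) = lm := by rw [ulen_eq, hlen, hlm]
      rw [hul, adv1_advP, adv2_advP, ← hΘ]
      have hnx : num x < 2 * (lm.length + 2) ^ c := by
        have g6 := num_lt x
        rw [pow_succ] at g6
        rw [hlml]
        have h1 : 2 ^ x.length ≤ (lam + 2) ^ c := hx
        omega
      obtain ⟨l, h1, h2, h3, h4⟩ := h0 x
      have hql : qlF O q0 g (tmF c k0 lm) x = l.map g := qlF_eq h1 h2 (tmF_le hnx)
      have hmem : ∀ z ∈ qlF O q0 g (tmF c k0 lm) x, z ∈ zsF O q0 g c k0 lm := fun z hz => by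
        unfold zsF
        exact List.mem_flatMap.mpr ⟨x, mem_xsF hnx, hz⟩
      have hans2 : ((qlF O q0 g (tmF c k0 lm) x).map fun z =>
          decF O W ℓ (3 * (c + 1)) k Q V m0 (List.replicate (2 ^ e * (lm.length + 2) ^ e) ())
            Θ j z) = l.map B := by
        have h6 : ((qlF O q0 g (tmF c k0 lm) x).map fun z =>
            decF O W ℓ (3 * (c + 1)) k Q V m0 (List.replicate (2 ^ e * (lm.length + 2) ^ e) ())
              Θ j z) = (qlF O q0 g (tmF c k0 lm) x).map (UK O) := by
          refine List.map_congr_left fun z hz => ?_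
          rw [hj, hΘ]
          refine decF_eq hcut htot hUV (hM14.trans hm0) ?_ hP (b := 2 ^ m0) ?_
            (fun z' h7 h8 => hshort z' h7 h8) (hmem z hz)
          · rw [List.length_replicate, hlml]
            exact hl2
          · intro z' hz'
            have h7 := hZlen lm z' hz'
            rw [hlml] at h7
            exact h7.trans hl1
        rw [h6, hql, List.map_map]
        refine List.map_congr_left fun w _ => ?_
        exact (hg w).symm
      rw [hans2]
      exact accU_big h3 h4 (tmF_le hnx)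

end Pool.Agent.CKP
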