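import Pool.Agent.Lib_helper57.YT.ClassesR
import Pool.Agent.Lib_helper57.YT.D
import Pool.Agent.Lib_helper57.YR.A

/-!
# Exponential time with few rounds of queries: typed form, inclusion in `E^NP` (MP_675993_lc)
-/

set_option autoImplicit false
set_option linter.unusedSectionVars false

namespace Pool.Agent.CKP

open Pool.Agent.CK

variable {O : Lang}
variable {α β γ δ : Type} [ToD α] [ToD β] [ToD γ] [ToD δ]

/-! ### lengths of the stacks -/

theorem step_stack (O : Lang) (s : Config) (r : ℕ) :
    ((step O s).2 r).length ≤ (s.2 r).length + 1 := by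
  obtain ⟨k, σ⟩ := s
  cases k with
  | nil => simp [step]
  | cons a k =>
    cases a with
    | skip => simp [step]
    | push r' b =>
      simp only [step, Function.update_apply]
      split_ifs with h
      · subst h; simp
      · simp
    | pop r' =>
      simp only [step, Function.update_apply]
      split_ifs with h
      · subst h; simp; omega
      · simp
    | seq c d => simp [step]
    | cond r' b c d => simp [step]
    | loop r' c =>
      simp only [step]
      split_ifs <;> simp
    | ask r' c d => simp [step]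

theorem iter_stack (O : Lang) (t : ℕ) (s : Config) (r : ℕ) :
    (((step O)^[t] s).2 r).length ≤ (s.2 r).length + t := by
  induction t with
  | zero => simp
  | succ t ih =>
    rw [Function.iterate_succ_apply']
    have := step_stack O ((step O)^[t] s) r
    omega

theorem run_stack (O : Lang) (c : Cmd) (x y : List Bool) (t : ℕ) :
    ((run O c x y t).2 0).length ≤ x.length + t := iter_stack O t _ 0

theorem length_le_code (l : List (List Bool)) : l.length ≤ (l.flatMap code).length := by
  induction l with
  | nil => simp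
  | cons a t ih =>
    rw [List.flatMap_cons, List.length_append, List.length_cons]
    have : 1 ≤ (code a).length := by
      unfold code
      rw [List.length_append]
      simp
    omega

/-! ### exponential time, typed -/

theorem inE_of_typed {L : Lang} {F : List Unit → List Bool → Bool}
    (hF : PTime O (fun p : List Unit × List Bool => F p.1 p.2)) (k : ℕ)
    (h : ∀ x : List Bool, F (List.replicate (2 ^ (k * (x.length + 1))) ()) x = L x) : InE O L := by
  have he : PTime O (fun x : List Bool => List.replicate (k * (x.length + 1)) ()) :=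
    UPoly.comp (g := fun n => k * (n + 1)) ((UPoly.const k).mul (UPoly.id.add (UPoly.const 1)))
      PTime.id
  have hX := (XT.of_ptime hF (fun _ => 0)).comp (XT.exp he)
  simp only [List.length_replicate] at hX
  have hX' : XT O L (fun x => 2 ^ (k * (x.length + 1)) +
      (sz (List.replicate (2 ^ (k * (x.length + 1))) (), x) + 0)) := by
    have : L = fun x => F (List.replicate (2 ^ (k * (x.length + 1))) ()) x :=
      funext fun x => (h x).symm
    rw [this]
    exact hX
  obtain ⟨p, P, hp⟩ := hX'.run_dec
  obtain ⟨a, ha⟩ := exists_pow P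
  refine ⟨p, (k + 5) * a, fun x => ?_⟩
  obtain ⟨t, ht, h1, h2⟩ := hp x
  have ht' : t ≤ 2 ^ ((k + 5) * a * (x.length + 1)) := by
    refine ht.trans ((ha _).trans ?_)
    have h3 : 2 ^ ((k + 5) * a * (x.length + 1)) = (2 ^ ((k + 5) * (x.length + 1))) ^ a := by
      rw [← pow_mul]
      congr 1
      ring
    rw [h3]
    refine Nat.pow_le_pow_left ?_ a
    refine le_trans ?_ (d_arith x.length k)
    have h4 : sz (List.replicate (2 ^ (k * (x.length + 1))) ()) =
        2 * 2 ^ (k * (x.length + 1)) + 1 := by
      rw [sz_units, List.length_replicate]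
    have h5 : sz x ≤ 4 * x.length + 1 := size_bits x
    rw [sz_pair, h4]
    omega
  have hrun := run_stable h1 ht'
  constructor
  · unfold Halts at h1 ⊢
    rw [hrun]
    exact h1
  · rw [← h2]
    unfold Accepts
    rw [hrun]

/-! ### one round -/

/-- the queries of a round on `x` after the answers `a`, mapped by `g` -/
def qrF (O : Lang) (q : Cmd) (g : List Bool → List Bool) (N : List Unit) (x a : List Bool) :
    List (List Bool) :=
  (ytake N (items (outU O (cmdD q) x a N))).map g

theorem PTime.qrF (q : Cmd) {g : List Bool → List Bool} (hg : PTime O g) {N : γ → List Unit}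
    {x a : γ → List Bool} (hN : PTime O N) (hx : PTime O x) (ha : PTime O a) :
    PTime O (fun p => CKP.qrF O q g (N p) (x p) (a p)) := by
  unfold CKP.qrF
  exact PTime.map (f := fun _ w => g w)
    (PTime.ytake hN (PTime.items (PTime.outU (PTime.const (cmdD q)) hx ha hN)))
    (hg.comp PTime.id.snd)

theorem qrF_length (O : Lang) (q : Cmd) (g : List Bool → List Bool) (N : List Unit)
    (x a : List Bool) : (qrF O q g N x a).length ≤ N.length := by
  unfold qrF
  rw [List.length_map, ytake_eq, List.length_take]
  omega

theorem qrF_eq {q : Cmd} {g : List Bool → List Bool} {x a : List Bool} {l : List (List Bool)}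
    {t : ℕ} {N : List Unit} (h1 : Halts O q x a t) (h2 : (run O q x a t).2 0 = l.flatMap code)
    (hN : x.length + t ≤ N.length) : qrF O q g N x a = l.map g := by
  unfold qrF
  rw [outU_eq, run_stable h1 (by omega), h2, items_code, ytake_eq, List.take_of_length_le]
  have h3 := length_le_code l
  have h4 := run_stack O q x a t
  rw [h2] at h4
  omega

/-- what is used about the rounds on one input -/
structure Rnd (O B : Lang) (q c : Cmd) (T : ℕ) (x : List Bool) (v : Bool) (r : ℕ)
    (a : ℕ → List Bool) : Prop where
  h0 : a 0 = []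
  hq : ∀ i < r, ∃ l : List (List Bool), Halts O q x (a i) T ∧
    (run O q x (a i) T).2 0 = l.flatMap code ∧ a (i + 1) = a i ++ l.map B
  hr : Halts O q x (a r) T
  hr' : (run O q x (a r) T).2 0 = []
  hc : Halts O c x (a r) T
  hv : Accepts O c x (a r) T ↔ v = true

theorem Rnd.step {B : Lang} {q c : Cmd} {T : ℕ} {x : List Bool} {v : Bool} {r : ℕ}
    {a : ℕ → List Bool} (h : Rnd O B q c T x v r a) {g : List Bool → List Bool} {φ : List Bool → Bool}
    {N : List Unit} (hN : x.length + T ≤ N.length) (i : ℕ)
    (hφ : ∀ w, g w ∈ qrF O q g N x (a (min i r)) → φ (g w) = B w) :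
    a (min i r) ++ (qrF O q g N x (a (min i r))).map φ = a (min (i + 1) r) := by
  rcases Nat.lt_or_ge i r with hi | hi
  · obtain ⟨l, h1, h2, h3⟩ := h.hq i hi
    rw [min_eq_left hi.le] at hφ ⊢
    rw [min_eq_left (show i + 1 ≤ r by omega), h3]
    rw [qrF_eq h1 h2 hN] at hφ ⊢
    rw [List.map_map]
    congr 1
    exact List.map_congr_left fun w hw => hφ w (List.mem_map.mpr ⟨w, hw, rfl⟩)
  · rw [min_eq_right hi, min_eq_right (show r ≤ i + 1 by omega)]
    rw [qrF_eq (l := []) h.hr (by rw [h.hr']; rfl) hN]
    simp

/-! ### inclusion in `E^NP` -/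

/-- the answers of all rounds -/
def allB (O B : Lang) (q : Cmd) (N : List Unit) (x : List Bool) : List Bool :=
  N.foldl (fun a _ => a ++ (qrF O q (fun w => w) N x a).map B) []

theorem allB_eq {B : Lang} {q c : Cmd} {T : ℕ} {x : List Bool} {v : Bool} {r : ℕ}
    {a : ℕ → List Bool} (h : Rnd O B q c T x v r a) {N : List Unit}
    (hN : x.length + T ≤ N.length) (hr : r ≤ N.length) : allB O B q N x = a r := by
  have key : ∀ l : List Unit,
      l.foldl (fun a _ => a ++ (qrF O q (fun w => w) N x a).map B) [] = a (min l.length r) := by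
    intro l
    induction l using List.reverseRecOn with
    | nil => simp [h.h0]
    | append_singleton l u ih =>
      rw [List.foldl_append, List.foldl_cons, List.foldl_nil, ih, List.length_append,
        List.length_singleton]
      exact h.step (g := fun w => w) (φ := B) hN l.length fun _ _ => rfl
  unfold allB
  rw [key, min_eq_right hr]

theorem PTime.allB {B : Lang} (q : Cmd) {N : γ → List Unit} {x : γ → List Bool}
    (hN : PTime (join O B) N) (hx : PTime (join O B) x) :
    PTime (join O B) (fun p => CKP.allB O B q (N p) (x p)) := by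
  unfold CKP.allB
  obtain ⟨PN, hPN⟩ := hN.size_le
  have hq : PTime (join O B) (fun p : List Unit × List Bool × List Bool =>
      CKP.qrF O q (fun w => w) p.1 p.2.1 p.2.2) :=
    PTime.lift (PTime.qrF q PTime.id PTime.id.fst PTime.id.snd.fst PTime.id.snd.snd)
  refine PTime.foldl_add (l := N) (i := fun _ => ([] : List Bool))
    (s := fun p a _ => a ++ (CKP.qrF O q (fun w => w) (N p) (x p) a).map B) hN (PTime.const [])
    ?_ (4 * PN + 1) ?_
  · refine PTime.append PTime.id.snd.fst ?_
    exact PTime.map (f := fun _ w => B w)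
      (hq.comp ((hN.comp PTime.id.fst).pair ((hx.comp PTime.id.fst).pair PTime.id.snd.fst)))
      (PTime.askR PTime.id.snd)
  · intro p a _ _
    have h1 := qrF_length O q (fun w => w) (N p) (x p) a
    have h2 := hPN p
    have h3 := length_le_sz (N p)
    have h4 : sz (a ++ (CKP.qrF O q (fun w => w) (N p) (x p) a).map B) ≤
        sz a + 4 * (N p).length := by
      have h5 : ∀ (l m : List Bool), sz (l ++ m) ≤ sz l + 4 * m.length := by
        intro l m
        induction l with
        | nil =>
          have := size_bits m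
          rw [List.nil_append, sz_nil]
          have h6 : sz m ≤ 4 * m.length + 1 := this
          omega
        | cons b l ih => rw [List.cons_append, sz_cons, sz_cons]; omega
      refine (h5 _ _).trans ?_
      rw [List.length_map]
      omega
    simp only [Polynomial.eval_add, Polynomial.eval_mul, Polynomial.eval_ofNat,
      Polynomial.eval_one]
    omega

theorem g_arith (n k m b : ℕ) :
    n + 2 ^ (k * (n + 1)) ≤ 2 ^ ((k + m + b + 2) * (n + 1)) ∧
      2 ^ (m * n) + b ≤ 2 ^ ((k + m + b + 2) * (n + 1)) := by
  constructor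
  · have h1 : n + 2 ≤ 2 ^ (n + 1) := by
      have : n + 1 < 2 ^ (n + 1) := Nat.lt_two_pow_self
      omega
    have h2 : 1 ≤ 2 ^ (k * (n + 1)) := Nat.one_le_two_pow
    have h3 : 2 ^ (k * (n + 1)) * 2 ^ (n + 1) ≤ 2 ^ ((k + m + b + 2) * (n + 1)) := by
      rw [← pow_add]
      refine Nat.pow_le_pow_right (by norm_num) ?_
      nlinarith [Nat.zero_le (m * (n + 1)), Nat.zero_le (b * (n + 1))]
    refine le_trans ?_ h3
    nlinarith [Nat.mul_le_mul h2 h1]
  · have h1 : b + 1 ≤ 2 ^ (b + 1) := by
      have : b + 1 < 2 ^ (b + 1) := Nat.lt_two_pow_self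
      omega
    have h2 : 1 ≤ 2 ^ (m * n) := Nat.one_le_two_pow
    have h3 : 2 ^ (m * n) * 2 ^ (b + 1) ≤ 2 ^ ((k + m + b + 2) * (n + 1)) := by
      rw [← pow_add]
      refine Nat.pow_le_pow_right (by norm_num) ?_
      nlinarith [Nat.zero_le (k * (n + 1)), Nat.zero_le (b * n), Nat.zero_le m]
    refine le_trans ?_ h3
    nlinarith [Nat.mul_le_mul h2 h1]

theorem enp_of_rounds {d : ℝ} {L : Lang} (hL : InENProunds O d L) : InENP O L := by
  obtain ⟨B, q, c, k, b, hB, h⟩ := hL
  refine ⟨B, hB, ?_⟩
  have hF : PTime (join O B) (fun p : List Unit × List Bool =>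
      accU O (cmdD c) p.2 (allB O B q p.1 p.2) p.1) := by
    have h1 : PTime (join O B) (fun p : List Unit × List Bool × List Bool =>
        accU O (cmdD c) p.2.1 p.2.2 p.1) :=
      PTime.lift (PTime.accU (PTime.const (cmdD c)) PTime.id.snd.fst PTime.id.snd.snd PTime.id.fst)
    exact h1.comp (PTime.id.fst.pair (PTime.id.snd.pair (PTime.allB q PTime.id.fst PTime.id.snd)))
  refine inE_of_typed (F := fun N x => accU O (cmdD c) x (allB O B q N x) N) hF
    (k + ⌈d⌉₊ + b + 2) fun x => ?_
  obtain ⟨r, a, hr, h0, hq, h1, h2, h3, h4⟩ := h x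
  have hR : Rnd O B q c (2 ^ (k * (x.length + 1))) x (L x) r a := ⟨h0, hq, h1, h2, h3, h4⟩
  obtain ⟨g1, g2⟩ := g_arith x.length k ⌈d⌉₊ b
  have hr' : r ≤ 2 ^ (⌈d⌉₊ * x.length) + b := by
    have h5 : (2 : ℝ) ^ (d * x.length) ≤ ((2 ^ (⌈d⌉₊ * x.length) : ℕ) : ℝ) := by
      push_cast
      rw [← Real.rpow_natCast (2 : ℝ) (⌈d⌉₊ * x.length)]
      refine Real.rpow_le_rpow_of_exponent_le (by norm_num) ?_
      push_cast
      exact mul_le_mul_of_nonneg_right (Nat.le_ceil d) (Nat.cast_nonneg _)
    have h6 : (r : ℝ) ≤ ((2 ^ (⌈d⌉₊ * x.length) + b : ℕ) : ℝ) := by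
      push_cast at h5 ⊢
      linarith
    exact_mod_cast h6
  rw [allB_eq hR (by rw [List.length_replicate]; exact g1)
    (by rw [List.length_replicate]; exact hr'.trans g2)]
  exact accU_big h3 h4 (by rw [List.length_replicate]; omega)

end Pool.Agent.CKP
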