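import Pool.Agent.Lib_helper57.YT.F
import Pool.Agent.Lib_helper57.YT.G

/-!
# Few rounds of queries: the simulation of all rounds on all short inputs (MP_675993_lc)
-/

set_option autoImplicit false
set_option linter.unusedSectionVars false

namespace Pool.Agent.CKP

open Pool.Agent.CK

variable {O : Lang}
variable {α β γ δ : Type} [ToD α] [ToD β] [ToD γ] [ToD δ]

/-! ### states: inputs with the answers of the rounds before -/

/-- all queries of a round -/
def zsR (O : Lang) (q : Cmd) (g : List Bool → List Bool) (N : List Unit)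
    (S : List (List Bool × List Bool)) : List (List Bool) :=
  S.flatMap fun p => qrF O q g N p.1 p.2

/-- one round; `φ` gives the answers -/
def stS (O : Lang) (q : Cmd) (g : List Bool → List Bool) (N : List Unit)
    (S : List (List Bool × List Bool)) (φ : List Bool → Bool) : List (List Bool × List Bool) :=
  S.map fun p => (p.1, p.2 ++ (qrF O q g N p.1 p.2).map φ)

/-- look up the answers for `x` -/
def lkS (S : List (List Bool × List Bool)) (x : List Bool) : List Bool :=
  ((S.filter fun p => decide (num p.1 = num x)).headD (x, [])).2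

theorem lkS_eq {xs : List (List Bool)} {f : List Bool → List Bool} {x : List Bool} (hx : x ∈ xs) :
    lkS (xs.map fun y => (y, f y)) x = f x := by
  unfold lkS
  have h1 : (x, f x) ∈ (xs.map fun y => (y, f y)).filter fun p => decide (num p.1 = num x) := by
    rw [List.mem_filter]
    exact ⟨List.mem_map.mpr ⟨x, hx, rfl⟩, by simp⟩
  have h2 : ∀ p ∈ (xs.map fun y => (y, f y)).filter fun p => decide (num p.1 = num x),
      p.2 = f x := by
    intro p hp
    rw [List.mem_filter, decide_eq_true_eq] at hp
    obtain ⟨y, -, rfl⟩ := List.mem_map.mp hp.1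
    have h3 : y = x := x2_num hp.2
    rw [h3]
  cases hl : (xs.map fun y => (y, f y)).filter fun p => decide (num p.1 = num x) with
  | nil => rw [hl] at h1; exact absurd h1 (by simp)
  | cons p t =>
    rw [List.headD_cons]
    exact h2 p (by rw [hl]; exact List.mem_cons_self)

theorem stS_fst (q : Cmd) (g : List Bool → List Bool) (N : List Unit)
    (S : List (List Bool × List Bool)) (φ : List Bool → Bool) :
    (stS O q g N S φ).map Prod.fst = S.map Prod.fst := by
  unfold stS
  rw [List.map_map]
  rfl

theorem stS_len {q : Cmd} {g : List Bool → List Bool} {N : List Unit}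
    {S : List (List Bool × List Bool)} {φ : List Bool → Bool} {m : ℕ}
    (h : ∀ p ∈ S, p.2.length ≤ m) : ∀ p ∈ stS O q g N S φ, p.2.length ≤ m + N.length := by
  intro p hp
  unfold stS at hp
  obtain ⟨p', hp', rfl⟩ := List.mem_map.mp hp
  simp only
  rw [List.length_append, List.length_map]
  have h1 := qrF_length O q g N p'.1 p'.2
  have h2 := h p' hp'
  omega

theorem sz_state : ∀ (S : List (List Bool × List Bool)) (m : ℕ), (∀ p ∈ S, p.2.length ≤ m) →
    sz S ≤ sz (S.map Prod.fst) + S.length * (4 * m + 2) := by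
  intro S m
  induction S with
  | nil => intro _; simp
  | cons p S ih =>
    intro h
    have h1 := ih fun p hp => h p (List.mem_cons_of_mem _ hp)
    have h2 := h p List.mem_cons_self
    have h3 : sz p.2 ≤ 4 * p.2.length + 1 := size_bits p.2
    have h4 : sz p = sz p.1 + sz p.2 + 1 := rfl
    rw [sz_cons, List.map_cons, sz_cons, List.length_cons, h4]
    have h5 : (S.length + 1) * (4 * m + 2) = S.length * (4 * m + 2) + (4 * m + 2) := by ring
    omega

theorem PTime.zsR (q : Cmd) {g : List Bool → List Bool} (hg : PTime O g) {N : γ → List Unit}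
    {S : γ → List (List Bool × List Bool)} (hN : PTime O N) (hS : PTime O S) :
    PTime O (fun a => CKP.zsR O q g (N a) (S a)) := by
  unfold CKP.zsR
  exact PTime.flatMap (f := fun a (p : List Bool × List Bool) => CKP.qrF O q g (N a) p.1 p.2) hS
    (PTime.qrF q hg (hN.comp PTime.id.fst) PTime.id.snd.fst PTime.id.snd.snd)

theorem PTime.stS (q : Cmd) {g : List Bool → List Bool} (hg : PTime O g) {N : γ → List Unit}
    {S : γ → List (List Bool × List Bool)} {φ : γ → List Bool → Bool} (hN : PTime O N)
    (hS : PTime O S) (hφ : PTime O (fun p : γ × List Bool => φ p.1 p.2)) :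
    PTime O (fun a => CKP.stS O q g (N a) (S a) (φ a)) := by
  unfold CKP.stS
  refine PTime.map (f := fun a (p : List Bool × List Bool) =>
    (p.1, p.2 ++ (CKP.qrF O q g (N a) p.1 p.2).map (φ a))) hS ?_
  refine PTime.id.snd.fst.pair (PTime.append PTime.id.snd.snd ?_)
  refine PTime.map (f := fun (r : γ × (List Bool × List Bool)) w => φ r.1 w)
    (PTime.qrF q hg (hN.comp PTime.id.fst) PTime.id.snd.fst PTime.id.snd.snd) ?_
  exact PTime.comp (g := fun p : γ × List Bool => φ p.1 p.2) hφ (PTime.id.fst.fst.pair PTime.id.snd)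

theorem PTime.lkS {S : γ → List (List Bool × List Bool)} {x : γ → List Bool} (hS : PTime O S)
    (hx : PTime O x) : PTime O (fun a => CKP.lkS (S a) (x a)) := by
  unfold CKP.lkS
  refine (PTime.headD ?_ (hx.pair (PTime.const []))).snd
  refine PTime.filter (f := fun a (p : List Bool × List Bool) =>
    decide (num p.1 = num (x a))) hS ?_
  exact PTime.nat_eq (x1_num PTime.id.snd.fst) (x1_num (hx.comp PTime.id.fst))

/-! ### all rounds -/

section

variable (O : Lang) (W : ℕ → ℕ → Bool) (ℓ : ℕ → ℕ) (r kk : ℕ) (Q : List Bool → List (List Bool))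
    (V : List Bool → List Bool → Bool) (q : Cmd) (g : List Bool → List Bool)

/-- one round of the simulation, with the number `j` of the true comparisons -/
def rdS (n0 : ℕ) (U N : List Unit) (S : List (List Bool × List Bool)) (j : ℕ) :
    List (List Bool × List Bool) :=
  stS O q g N S (decF O W ℓ r kk Q V n0 U (thsZ W r kk Q n0 (zsR O q g N S)) j)

/-- all rounds of the simulation -/
def allS (n0 : ℕ) (U N : List Unit) (xs : List (List Bool)) (js : List ℕ) :
    List (List Bool × List Bool) :=
  js.foldl (rdS O W ℓ r kk Q V q g n0 U N) (xs.map fun x => (x, []))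

end

section

variable {W : ℕ → ℕ → Bool} {ℓ : ℕ → ℕ} {r kk : ℕ} {Q : List Bool → List (List Bool)}
    {V : List Bool → List Bool → Bool} {q : Cmd} {g : List Bool → List Bool}

theorem allS_state (n0 : ℕ) (U N : List Unit) (xs : List (List Bool)) (js : List ℕ) :
    (allS O W ℓ r kk Q V q g n0 U N xs js).map Prod.fst = xs ∧
      ∀ p ∈ allS O W ℓ r kk Q V q g n0 U N xs js, p.2.length ≤ js.length * N.length := by
  unfold allS
  induction js using List.reverseRecOn with
  | nil =>
    refine ⟨?_, fun p hp => ?_⟩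
    · rw [List.foldl_nil, List.map_map]
      exact List.map_id _
    · rw [List.foldl_nil] at hp
      obtain ⟨x, -, rfl⟩ := List.mem_map.mp hp
      simp
  | append_singleton l j ih =>
    rw [List.foldl_append, List.foldl_cons, List.foldl_nil]
    unfold rdS
    refine ⟨?_, fun p hp => ?_⟩
    · rw [stS_fst]
      exact ih.1
    · have h1 := stS_len ih.2 p hp
      rw [List.length_append, List.length_singleton]
      calc _ ≤ _ := h1
        _ = (l.length + 1) * N.length := by ring

theorem allS_sz (n0 : ℕ) (U N : List Unit) (xs : List (List Bool)) (js : List ℕ) :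
    sz (allS O W ℓ r kk Q V q g n0 U N xs js) ≤
      sz xs + xs.length * (4 * (js.length * N.length) + 2) := by
  obtain ⟨h1, h2⟩ := allS_state (O := O) (W := W) (ℓ := ℓ) (r := r) (kk := kk) (Q := Q) (V := V)
    (q := q) (g := g) n0 U N xs js
  have h3 := sz_state _ _ h2
  rw [h1] at h3
  have h4 : (allS O W ℓ r kk Q V q g n0 U N xs js).length = xs.length := by
    rw [← h1, List.length_map]
    simp [h1]
  rw [h4] at h3
  exact h3

end

theorem PTime.allS {W : ℕ → ℕ → Bool} {ℓ : ℕ → ℕ} (hver : Ver O W ℓ) (r kk : ℕ)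
    {Q : List Bool → List (List Bool)} {V : List Bool → List Bool → Bool} (hQ : PTime O Q)
    (hV : PTime O (fun p : List Bool × List Bool => V p.1 p.2)) (q : Cmd)
    {g : List Bool → List Bool} (hg : PTime O g) {n0 : γ → ℕ} {U N : γ → List Unit}
    {xs : γ → List (List Bool)} {js : γ → List ℕ} (hn0 : PTime O n0) (hU : PTime O U)
    (hN : PTime O N) (hxs : PTime O xs) (hjs : PTime O js) :
    PTime O (fun a => CKP.allS O W ℓ r kk Q V q g (n0 a) (U a) (N a) (xs a) (js a)) := by
  obtain ⟨PN, hPN⟩ := hN.size_le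
  obtain ⟨Px, hPx⟩ := hxs.size_le
  obtain ⟨Pj, hPj⟩ := hjs.size_le
  have hstep : PTime O (fun p : γ × List (List Bool × List Bool) × ℕ =>
      rdS O W ℓ r kk Q V q g (n0 p.1) (U p.1) (N p.1) p.2.1 p.2.2) := by
    unfold rdS
    have hZ : PTime O (fun p : γ × List (List Bool × List Bool) × ℕ =>
        CKP.thsZ W r kk Q (n0 p.1) (CKP.zsR O q g (N p.1) p.2.1)) :=
      PTime.thsZ hver r kk hQ (hn0.comp PTime.id.fst)
        (PTime.zsR q hg (hN.comp PTime.id.fst) PTime.id.snd.fst)
    refine PTime.stS q hg (φ := fun p : γ × List (List Bool × List Bool) × ℕ =>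
      CKP.decF O W ℓ r kk Q V (n0 p.1) (U p.1)
        (CKP.thsZ W r kk Q (n0 p.1) (CKP.zsR O q g (N p.1) p.2.1))
        p.2.2) (hN.comp PTime.id.fst) PTime.id.snd.fst ?_
    exact PTime.decF hver r kk hQ hV (hn0.comp PTime.id.fst.fst) (hU.comp PTime.id.fst.fst)
      (hZ.comp PTime.id.fst) PTime.id.fst.snd.snd PTime.id.snd
  unfold CKP.allS
  refine PTime.foldl (l := js) (i := fun a => (xs a).map fun x => (x, []))
    (s := fun a => rdS O W ℓ r kk Q V q g (n0 a) (U a) (N a)) hjs
    (PTime.map (f := fun _ (x : List Bool) => (x, ([] : List Bool))) hxs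
      (PTime.id.snd.pair (PTime.const []))) hstep (Px + Px * (4 * (Pj * PN) + 2)) ?_
  intro a l' hl'
  have h1 := allS_sz (O := O) (W := W) (ℓ := ℓ) (r := r) (kk := kk) (Q := Q) (V := V)
    (q := q) (g := g) (n0 a) (U a) (N a) (xs a) l'
  unfold CKP.allS at h1
  refine h1.trans ?_
  have h2 : l'.length ≤ Pj.eval (sz a) := (hl'.length_le.trans (length_le_sz _)).trans (hPj a)
  have h3 : (N a).length ≤ PN.eval (sz a) := (length_le_sz _).trans (hPN a)
  have h4 : (xs a).length ≤ Px.eval (sz a) := (length_le_sz _).trans (hPx a)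
  simp only [Polynomial.eval_add, Polynomial.eval_mul, Polynomial.eval_ofNat]
  refine Nat.add_le_add (hPx a) (Nat.mul_le_mul h4 (Nat.add_le_add_right (Nat.mul_le_mul_left _
    (Nat.mul_le_mul h2 h3)) _))

end Pool.Agent.CKP
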