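import Pool.Agent.Lib_helper57.YT.H

/-!
# Few rounds of queries: correctness of the simulation, numbers (MP_675993_lc)
-/

set_option autoImplicit false
set_option linter.unusedSectionVars false

namespace Pool.Agent.CKP

open Pool.Agent.CK

variable {O : Lang}
variable {α β γ δ : Type} [ToD α] [ToD β] [ToD γ] [ToD δ]

theorem Rnd.len {B : Lang} {q c : Cmd} {T : ℕ} {x : List Bool} {v : Bool} {r : ℕ}
    {a : ℕ → List Bool} (h : Rnd O B q c T x v r a) {N : List Unit}
    (hN : x.length + T ≤ N.length) : ∀ i ≤ r, (a i).length ≤ i * N.length := by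
  intro i
  induction i with
  | zero => intro _; rw [h.h0]; simp
  | succ i ih =>
    intro hi
    obtain ⟨l, h1, h2, h3⟩ := h.hq i (by omega)
    have h4 := ih (by omega)
    have h5 : (l.map fun w => w).length ≤ N.length := by
      rw [← qrF_eq (g := fun w => w) h1 h2 hN]
      exact qrF_length O q _ N x (a i)
    rw [List.length_map] at h5
    rw [h3, List.length_append, List.length_map]
    calc _ ≤ i * N.length + N.length := by omega
      _ = (i + 1) * N.length := by ring

section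

variable {W : ℕ → ℕ → Bool} {ℓ : ℕ → ℕ} {c kk n0 : ℕ} {Q : List Bool → List (List Bool)}
    {V : List Bool → List Bool → Bool}

/-- the state after `i` rounds -/
def stR (xs : List (List Bool)) (r : List Bool → ℕ) (a : List Bool → ℕ → List Bool) (i : ℕ) :
    List (List Bool × List Bool) :=
  xs.map fun x => (x, a x (min i (r x)))

theorem allS_exists (hcut : Cut W ℓ) (htot : ∀ m, ∃ v, W m v = true)
    (hUV : ∀ z, UK O z = V z ((Q z).map (CL O W (3 * (c + 1)) kk))) (hn0 : 14 ≤ n0)
    {U : List Unit} (hU : 2 ^ n0 ≤ U.length) {P : Polynomial ℕ}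
    (hP : ∀ z, ∀ q ∈ Q z, 3 * q.length + 1 < P.eval z.length) {b : ℕ}
    (hshort : ∀ z : List Bool, n0 ≤ z.length → z.length ≤ b → ∀ q ∈ Q z, typ q = true →
      valid W (3 * (c + 1)) kk q = true →
      (∀ i < (wss q).length, LeastSpec W i (ent (wss q) i)) →
      (wss q).length < 2 * (z.length + 2) ^ c)
    {B : Lang} {q0 c0 : Cmd} {g : List Bool → List Bool} (hg : ∀ w, B w = UK O (g w))
    {N : List Unit} {xs : List (List Bool)} {r : List Bool → ℕ} {a : List Bool → ℕ → List Bool}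
    {T : List Bool → ℕ} {L : Lang} (hR : ∀ x ∈ xs, Rnd O B q0 c0 (T x) x (L x) (r x) (a x))
    (hN : ∀ x ∈ xs, x.length + T x ≤ N.length)
    (hb : ∀ i, ∀ z ∈ zsR O q0 g N (stR xs r a i), z.length ≤ b) (m : ℕ) :
    ∃ js : List ℕ, js.length = m ∧
      (∀ j ∈ js, ∃ i, j = cntT W (thsZ W (3 * (c + 1)) kk Q n0 (zsR O q0 g N (stR xs r a i)))) ∧
      allS O W ℓ (3 * (c + 1)) kk Q V q0 g n0 U N xs js = stR xs r a m := by
  induction m with
  | zero =>
    refine ⟨[], rfl, fun j hj => absurd hj (by simp), ?_⟩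
    unfold allS stR
    rw [List.foldl_nil]
    refine List.map_congr_left fun x hx => ?_
    rw [Nat.zero_min, (hR x hx).h0]
  | succ m ih =>
    obtain ⟨js, h1, h2, h3⟩ := ih
    refine ⟨js ++ [cntT W (thsZ W (3 * (c + 1)) kk Q n0 (zsR O q0 g N (stR xs r a m)))], ?_, ?_, ?_⟩
    · rw [List.length_append, List.length_singleton, h1]
    · intro j hj
      rcases List.mem_append.mp hj with hj | hj
      · exact h2 j hj
      · exact ⟨m, List.mem_singleton.mp hj⟩
    · unfold allS at h3 ⊢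
      rw [List.foldl_append, List.foldl_cons, List.foldl_nil, h3]
      unfold rdS stS
      have hlist : stR xs r a m = xs.map fun x => (x, a x (min m (r x))) := rfl
      have hgoal : stR xs r a (m + 1) = xs.map fun x => (x, a x (min (m + 1) (r x))) := rfl
      rw [hgoal]
      conv_lhs => rw [hlist]
      rw [List.map_map]
      refine List.map_congr_left fun x hx => ?_
      simp only [Function.comp_apply]
      rw [← hlist]
      congr 1
      refine (hR x hx).step (hN x hx) m fun w hw => ?_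
      rw [hg w]
      refine decF_eq hcut htot hUV hn0 hU hP (b := b) (hb m) hshort ?_
      unfold zsR
      exact List.mem_flatMap.mpr ⟨(x, a x (min m (r x))), List.mem_map.mpr ⟨x, hx, rfl⟩, hw⟩

theorem rdS_done {r' : ℕ} {U : List Unit} {B : Lang} {q0 c0 : Cmd} {g : List Bool → List Bool}
    {N : List Unit} {xs : List (List Bool)} {r : List Bool → ℕ} {a : List Bool → ℕ → List Bool}
    {T : List Bool → ℕ} {L : Lang} (hR : ∀ x ∈ xs, Rnd O B q0 c0 (T x) x (L x) (r x) (a x))
    (hN : ∀ x ∈ xs, x.length + T x ≤ N.length) (j : ℕ) :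
    rdS O W ℓ r' kk Q V q0 g n0 U N (xs.map fun x => (x, a x (r x))) j =
      xs.map fun x => (x, a x (r x)) := by
  unfold rdS stS
  conv_lhs => rw [List.map_map]
  refine List.map_congr_left fun x hx => ?_
  simp only [Function.comp_apply]
  have h := hR x hx
  rw [qrF_eq (l := []) h.hr (by rw [h.hr']; rfl) (hN x hx)]
  simp

theorem allS_done {r' : ℕ} {U : List Unit} {B : Lang} {q0 c0 : Cmd} {g : List Bool → List Bool}
    {N : List Unit} {xs : List (List Bool)} {r : List Bool → ℕ} {a : List Bool → ℕ → List Bool}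
    {T : List Bool → ℕ} {L : Lang} (hR : ∀ x ∈ xs, Rnd O B q0 c0 (T x) x (L x) (r x) (a x))
    (hN : ∀ x ∈ xs, x.length + T x ≤ N.length) {js : List ℕ}
    (h : allS O W ℓ r' kk Q V q0 g n0 U N xs js = xs.map fun x => (x, a x (r x)))
    (js' : List ℕ) :
    allS O W ℓ r' kk Q V q0 g n0 U N xs (js ++ js') = xs.map fun x => (x, a x (r x)) := by
  unfold allS at h ⊢
  rw [List.foldl_append, h]
  induction js' with
  | nil => rfl
  | cons j t ih =>
    rw [List.foldl_cons, rdS_done hR hN]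
    exact ih

end

/-! ### the advice -/

/-- the advice: the threshold, and one number for each round, with padding -/
def advR (m : ℕ) (js : List ℕ) (pad : ℕ) : List Bool :=
  CK.code m.bits ++ ((js.flatMap fun j => CK.code j.bits) ++ List.replicate pad false)

/-- the numbers of the rounds in an advice -/
def advJ (w : List Bool) : List ℕ := ytake (ulen w) ((items w).tail.map ofBits)

theorem items_flatMap (js : List ℕ) (r : List Bool) :
    items ((js.flatMap fun j => CK.code j.bits) ++ r) = js.map Nat.bits ++ items r := by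
  induction js with
  | nil => rfl
  | cons j t ih =>
    rw [List.flatMap_cons, List.append_assoc, items_code_append, ih]
    rfl

theorem adv1_advR (m : ℕ) (js : List ℕ) (pad : ℕ) : adv1 (advR m js pad) = m := by
  unfold adv1 advR
  rw [items_code_append, List.headD_cons, ofBits_bits]

theorem advJ_advR {m : ℕ} {js : List ℕ} {pad : ℕ} (h : js.length ≤ (advR m js pad).length) :
    ∃ js', advJ (advR m js pad) = js ++ js' := by
  unfold advJ
  rw [ytake_eq, ulen_eq, List.length_replicate]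
  have h1 : (items (advR m js pad)).tail.map ofBits =
      js ++ (items (List.replicate pad false)).map ofBits := by
    unfold advR
    rw [items_code_append, List.tail_cons, items_flatMap, List.map_append, List.map_map]
    congr 1
    have : (ofBits ∘ Nat.bits) = id := funext fun j => ofBits_bits j
    rw [this, List.map_id]
  rw [h1, List.take_append, List.take_of_length_le h]
  exact ⟨_, rfl⟩

theorem length_advR {m : ℕ} {js : List ℕ} {pad s : ℕ} (h : ∀ j ∈ js, j.size ≤ s) :
    (advR m js 0).length ≤ (2 * m.size + 1) + js.length * (2 * s + 1) ∧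
      (advR m js pad).length = (advR m js 0).length + pad := by
  unfold advR
  constructor
  · rw [List.length_append, List.length_append, List.length_replicate, length_code,
      Nat.size_eq_bits_len]
    have : (js.flatMap fun j => CK.code j.bits).length ≤ js.length * (2 * s + 1) := by
      induction js with
      | nil => simp
      | cons j t ih =>
        rw [List.flatMap_cons, List.length_append, length_code, List.length_cons,
          Nat.size_eq_bits_len]
        have h1 := ih fun j hj => h j (List.mem_cons_of_mem _ hj)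
        have h2 := h j List.mem_cons_self
        calc _ ≤ (2 * s + 1) + t.length * (2 * s + 1) := by omega
          _ = (t.length + 1) * (2 * s + 1) := by ring
    omega
  · simp only [List.length_append, List.length_replicate]
    omega

theorem PTime.advJ {w : γ → List Bool} (hw : PTime O w) : PTime O (fun a => CKP.advJ (w a)) := by
  unfold CKP.advJ
  refine PTime.ytake (PTime.ulen hw) ?_
  exact PTime.map (f := fun _ l => CKP.ofBits l) (PTime.tail (PTime.items hw))
    (PTime.ofBits PTime.id.snd)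

/-! ### numbers -/

/-- the parameters of the advice for few rounds -/
theorem i_par {e e2 b c : ℕ} (he : 1 ≤ e) (hc : 1 ≤ c) : ∃ M : ℕ, 14 ≤ M ∧ ∀ m0 : ℕ, M ≤ m0 →
    ∃ lam m s : ℕ, (lam + 2) ^ e ≤ 2 ^ m0 ∧ 2 ^ m0 ≤ 2 ^ e * (lam + 2) ^ e ∧ m0 ≤ lam ∧
      lam ≤ 2 ^ m0 ∧ m ≤ lam ∧
      (∀ (n r : ℕ), 2 ^ (n + 1) ≤ 4 * (lam + 2) ^ c →
        (r : ℝ) ≤ (2 : ℝ) ^ (1 / (2 * (c : ℝ)) * n) + b → r ≤ m) ∧
      (∀ j : ℕ, j ≤ (lam + 2) ^ e2 → j.size ≤ s) ∧ (2 * m0.size + 1) + m * (2 * s + 1) ≤ lam := by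
  obtain ⟨t0, ht0⟩ := e_grow (3 * (2 * e + (b + 1) * (2 * e2 + 3) + 8))
  refine ⟨max 14 (e * (2 * t0 + 2)), le_max_left _ _, fun m0 hm0 => ?_⟩
  obtain ⟨t, ht⟩ : ∃ t, t = m0 / e := ⟨_, rfl⟩
  have h1 : 2 * t0 + 2 ≤ t := by
    rw [ht, Nat.le_div_iff_mul_le (by omega), mul_comm]
    exact (le_max_right _ _).trans hm0
  obtain ⟨h, hh⟩ : ∃ h, h = t / 2 + 1 := ⟨_, rfl⟩
  obtain ⟨u, hu⟩ : ∃ u, u = t - h := ⟨_, rfl⟩
  have hut : t = u + h := by omega
  have h2 := ht0 u (by omega)
  have h3 : e * t ≤ m0 := by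
    rw [ht]
    exact Nat.mul_div_le m0 e
  have h4 : m0 < e * (t + 1) := by
    rw [ht]
    exact Nat.lt_mul_div_succ m0 (by omega)
  have h14 : 14 ≤ m0 := (le_max_left _ _).trans hm0
  have htu : t + 1 ≤ 3 * (u + 1) := by omega
  obtain ⟨C, hC⟩ : ∃ C, C = 2 * e + (b + 1) * (2 * e2 + 3) + 8 := ⟨_, rfl⟩
  rw [← hC] at h2
  have h5 : C * (t + 1) ≤ 2 ^ u := by
    refine le_trans ?_ h2
    calc C * (t + 1) ≤ C * (3 * (u + 1)) := Nat.mul_le_mul_left _ htu
      _ = 3 * C * (u + 1) := by ring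
  have hp : 1 ≤ 2 ^ h := Nat.one_le_two_pow
  have h6 : C * (t + 1) * 2 ^ h ≤ 2 ^ t := by
    rw [hut, pow_add]
    rw [← hut]
    exact Nat.mul_le_mul_right _ h5
  have h7 : C * (t + 1) ≤ C * (t + 1) * 2 ^ h := Nat.le_mul_of_pos_right _ hp
  have hCe : 2 * e * (t + 1) ≤ C * (t + 1) := Nat.mul_le_mul_right _ (by rw [hC]; omega)
  have hC8 : 8 * (t + 1) ≤ C * (t + 1) := Nat.mul_le_mul_right _ (by rw [hC]; omega)
  obtain ⟨lam, hlam⟩ : ∃ lam, lam + 2 = 2 ^ t := ⟨2 ^ t - 2, by omega⟩
  have hm : m0 ≤ lam := by nlinarith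
  have htm : t ≤ m0 := le_trans (Nat.le_mul_of_pos_left t (by omega)) h3
  have hsum : (2 * m0 + 1) + (2 ^ h + b) * (2 * (t * e2 + 1) + 1) + 2 ≤ 2 ^ t := by
    refine le_trans ?_ h6
    have g1 : (2 ^ h + b) ≤ (b + 1) * 2 ^ h := by nlinarith
    have g2 : 2 * (t * e2 + 1) + 1 ≤ (2 * e2 + 3) * (t + 1) := by nlinarith
    have g3 : (2 ^ h + b) * (2 * (t * e2 + 1) + 1) ≤
        ((b + 1) * 2 ^ h) * ((2 * e2 + 3) * (t + 1)) := Nat.mul_le_mul g1 g2
    have g4 : 2 * m0 + 1 + 2 ≤ (2 * e + 8) * (t + 1) := by nlinarith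
    have g5 : (2 * e + 8) * (t + 1) ≤ (2 * e + 8) * (t + 1) * 2 ^ h :=
      Nat.le_mul_of_pos_right _ hp
    calc _ = (2 * m0 + 1 + 2) + (2 ^ h + b) * (2 * (t * e2 + 1) + 1) := by ring
      _ ≤ (2 * e + 8) * (t + 1) * 2 ^ h + ((b + 1) * 2 ^ h) * ((2 * e2 + 3) * (t + 1)) :=
        Nat.add_le_add (g4.trans g5) g3
      _ = C * (t + 1) * 2 ^ h := by rw [hC]; ring
  have hsz : m0.size ≤ m0 := Nat.size_le.mpr Nat.lt_two_pow_self
  refine ⟨lam, 2 ^ h + b, t * e2 + 1, ?_, ?_, hm, ?_, ?_, ?_, ?_, ?_⟩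
  · rw [hlam, ← pow_mul]
    exact Nat.pow_le_pow_right (by norm_num) (by rw [mul_comm]; exact h3)
  · rw [hlam, ← pow_mul, ← pow_add]
    exact Nat.pow_le_pow_right (by norm_num) (by nlinarith)
  · have h8 : 2 ^ t ≤ 2 ^ m0 := Nat.pow_le_pow_right (by norm_num) htm
    omega
  · have h9 : 2 ^ h + b ≤ (2 ^ h + b) * (2 * (t * e2 + 1) + 1) :=
      Nat.le_mul_of_pos_right _ (by omega)
    omega
  · intro n r hn hr
    rw [hlam, ← pow_mul] at hn
    have h8 : n + 1 ≤ t * c + 2 := by
      have : 2 ^ (n + 1) ≤ 2 ^ (t * c + 2) := by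
        refine hn.trans (le_of_eq ?_)
        ring
      exact (Nat.pow_le_pow_iff_right (by norm_num : 1 < 2)).1 this
    have hc' : (1 : ℝ) ≤ c := by exact_mod_cast hc
    have h9 : 1 / (2 * (c : ℝ)) * n ≤ (h : ℝ) := by
      have g1 : (n : ℝ) ≤ t * c + 1 := by exact_mod_cast (by omega : n ≤ t * c + 1)
      have g2 : (t : ℝ) + 1 ≤ 2 * h := by exact_mod_cast (by omega : t + 1 ≤ 2 * h)
      rw [one_div, inv_mul_le_iff₀ (by positivity)]
      nlinarith
    have h10 : (2 : ℝ) ^ (1 / (2 * (c : ℝ)) * n) ≤ ((2 ^ h : ℕ) : ℝ) := by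
      push_cast
      rw [← Real.rpow_natCast (2 : ℝ) h]
      exact Real.rpow_le_rpow_of_exponent_le (by norm_num) h9
    have h11 : (r : ℝ) ≤ ((2 ^ h + b : ℕ) : ℝ) := by
      push_cast at h10 ⊢
      linarith
    exact_mod_cast h11
  · intro j hj
    rw [Nat.size_le]
    rw [hlam, ← pow_mul] at hj
    refine lt_of_le_of_lt hj ?_
    exact Nat.pow_lt_pow_right (by norm_num) (by omega)
  · omega

end Pool.Agent.CKP
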